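import Mathlib

set_option autoImplicit false

/-!
One block of labels: points of the affine plane over a field, signed areas of triples.
-/

namespace Pool.Agent.H662R3

section field

variable {F : Type} [Field F]

/-- (twice the) signed area -/
def area (x y z : F × F) : F :=
  (y.1 - x.1) * (z.2 - x.2) - (y.2 - x.2) * (z.1 - x.1)

/-- parallelogram completion -/
def par (x y z : F × F) : F × F := (x.1 - y.1 + z.1, x.2 - y.2 + z.2)

/-- completion of the second kind -/
def c2 (s : F) (x y z : F × F) : F × F :=
  (x.1 - y.1 + z.1 + s / area x y z * (z.1 - x.1), x.2 - y.2 + z.2 + s / area x y z * (z.2 - x.2))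

/-- completion of the third kind -/
def c3 (s : F) (x y z : F × F) : F × F :=
  (x.1 - y.1 + z.1 + s / area x y z * (z.1 - y.1), x.2 - y.2 + z.2 + s / area x y z * (z.2 - y.2))

lemma par_xyw (x y z : F × F) : area x y (par x y z) = area x y z := by
  unfold area par; ring
lemma par_xzw (x y z : F × F) : area x z (par x y z) = area x y z := by
  unfold area par; ring
lemma par_yzw (x y z : F × F) : area y z (par x y z) = area x y z := by
  unfold area par; ring

lemma c2_xyw (s : F) (x y z : F × F) (h : area x y z ≠ 0) :
    area x y (c2 s x y z) = area x y z + s := by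
  have h1 : s / area x y z * area x y z = s := div_mul_cancel₀ s h
  have e : area x y (c2 s x y z) = area x y z + s / area x y z * area x y z := by
    unfold c2
    generalize s / area x y z = r
    unfold area; ring
  rw [e, h1]
lemma c2_xzw (s : F) (x y z : F × F) : area x z (c2 s x y z) = area x y z := by
  unfold c2
  generalize s / area x y z = r
  unfold area; ring
lemma c2_yzw (s : F) (x y z : F × F) (h : area x y z ≠ 0) :
    area y z (c2 s x y z) = area x y z - s := by
  have h1 : s / area x y z * area x y z = s := div_mul_cancel₀ s h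
  have e : area y z (c2 s x y z) = area x y z - s / area x y z * area x y z := by
    unfold c2
    generalize s / area x y z = r
    unfold area; ring
  rw [e, h1]

lemma c3_xyw (s : F) (x y z : F × F) (h : area x y z ≠ 0) :
    area x y (c3 s x y z) = area x y z + s := by
  have h1 : s / area x y z * area x y z = s := div_mul_cancel₀ s h
  have e : area x y (c3 s x y z) = area x y z + s / area x y z * area x y z := by
    unfold c3
    generalize s / area x y z = r
    unfold area; ring
  rw [e, h1]
lemma c3_xzw (s : F) (x y z : F × F) (h : area x y z ≠ 0) :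
    area x z (c3 s x y z) = area x y z + s := by
  have h1 : s / area x y z * area x y z = s := div_mul_cancel₀ s h
  have e : area x z (c3 s x y z) = area x y z + s / area x y z * area x y z := by
    unfold c3
    generalize s / area x y z = r
    unfold area; ring
  rw [e, h1]
lemma c3_yzw (s : F) (x y z : F × F) : area y z (c3 s x y z) = area x y z := by
  unfold c3
  generalize s / area x y z = r
  unfold area; ring

/-! ### injectivity -/

lemma par_inj_z {x y z z' : F × F} (h : par x y z = par x y z') : z = z' := by
  have h1 := congrArg Prod.fst h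
  have h2 := congrArg Prod.snd h
  simp only [par] at h1 h2
  exact Prod.ext (by linear_combination h1) (by linear_combination h2)

lemma par_inj_y {x y y' z : F × F} (h : par x y z = par x y' z) : y = y' := by
  have h1 := congrArg Prod.fst h
  have h2 := congrArg Prod.snd h
  simp only [par] at h1 h2
  exact Prod.ext (by linear_combination -h1) (by linear_combination -h2)

lemma par_inj_x {x x' y z : F × F} (h : par x y z = par x' y z) : x = x' := by
  have h1 := congrArg Prod.fst h
  have h2 := congrArg Prod.snd h
  simp only [par] at h1 h2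
  exact Prod.ext (by linear_combination h1) (by linear_combination h2)

/-- nonvanishing of `1 + s / A` -/
lemma one_add_div_ne {s A : F} (hA : A ≠ 0) (h : A + s ≠ 0) : 1 + s / A ≠ 0 := by
  intro h0
  apply h
  have : (1 + s / A) * A = 0 := by rw [h0, zero_mul]
  rw [add_mul, one_mul, div_mul_cancel₀ s hA] at this
  exact this

lemma one_sub_div_ne {s A : F} (hA : A ≠ 0) (h : A - s ≠ 0) : 1 - s / A ≠ 0 := by
  intro h0
  apply h
  have : (1 - s / A) * A = 0 := by rw [h0, zero_mul]
  rw [sub_mul, one_mul, div_mul_cancel₀ s hA] at this
  exact this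

lemma c2_inj_z {s : F} {x y z z' : F × F} (hA : area x y z ≠ 0) (hA' : area x y z' ≠ 0)
    (hp : area x y z + s ≠ 0) (h : c2 s x y z = c2 s x y z') : z = z' := by
  have e := congrArg (area x y) h
  rw [c2_xyw s x y z hA, c2_xyw s x y z' hA'] at e
  have e' : area x y z = area x y z' := add_right_cancel e
  have hr := one_add_div_ne hA hp
  have h1 := congrArg Prod.fst h
  have h2 := congrArg Prod.snd h
  simp only [c2] at h1 h2
  rw [← e'] at h1 h2
  generalize s / area x y z = r at *
  refine Prod.ext ?_ ?_
  · apply mul_left_cancel₀ hr; linear_combination h1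
  · apply mul_left_cancel₀ hr; linear_combination h2

lemma c2_inj_y {s : F} {x y y' z : F × F} (h : c2 s x y z = c2 s x y' z) : y = y' := by
  have e := congrArg (area x z) h
  rw [c2_xzw, c2_xzw] at e
  have h1 := congrArg Prod.fst h
  have h2 := congrArg Prod.snd h
  simp only [c2] at h1 h2
  rw [← e] at h1 h2
  generalize s / area x y z = r at *
  exact Prod.ext (by linear_combination -h1) (by linear_combination -h2)

lemma c2_inj_x {s : F} {x x' y z : F × F} (hA : area x y z ≠ 0) (hA' : area x' y z ≠ 0)
    (hp : area x y z - s ≠ 0) (h : c2 s x y z = c2 s x' y z) : x = x' := by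
  have e := congrArg (area y z) h
  rw [c2_yzw s x y z hA, c2_yzw s x' y z hA'] at e
  have e' : area x y z = area x' y z := sub_left_injective e
  have hr := one_sub_div_ne hA hp
  have h1 := congrArg Prod.fst h
  have h2 := congrArg Prod.snd h
  simp only [c2] at h1 h2
  rw [← e'] at h1 h2
  generalize s / area x y z = r at *
  refine Prod.ext ?_ ?_
  · apply mul_left_cancel₀ hr; linear_combination h1
  · apply mul_left_cancel₀ hr; linear_combination h2

lemma c3_inj_z {s : F} {x y z z' : F × F} (hA : area x y z ≠ 0) (hA' : area x y z' ≠ 0)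
    (hp : area x y z + s ≠ 0) (h : c3 s x y z = c3 s x y z') : z = z' := by
  have e := congrArg (area x y) h
  rw [c3_xyw s x y z hA, c3_xyw s x y z' hA'] at e
  have e' : area x y z = area x y z' := add_right_cancel e
  have hr := one_add_div_ne hA hp
  have h1 := congrArg Prod.fst h
  have h2 := congrArg Prod.snd h
  simp only [c3] at h1 h2
  rw [← e'] at h1 h2
  generalize s / area x y z = r at *
  refine Prod.ext ?_ ?_
  · apply mul_left_cancel₀ hr; linear_combination h1
  · apply mul_left_cancel₀ hr; linear_combination h2

lemma c3_inj_y {s : F} {x y y' z : F × F} (hA : area x y z ≠ 0) (hA' : area x y' z ≠ 0)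
    (hp : area x y z + s ≠ 0) (h : c3 s x y z = c3 s x y' z) : y = y' := by
  have e := congrArg (area x z) h
  rw [c3_xzw s x y z hA, c3_xzw s x y' z hA'] at e
  have e' : area x y z = area x y' z := add_right_cancel e
  have hr := one_add_div_ne hA hp
  have h1 := congrArg Prod.fst h
  have h2 := congrArg Prod.snd h
  simp only [c3] at h1 h2
  rw [← e'] at h1 h2
  generalize s / area x y z = r at *
  refine Prod.ext ?_ ?_
  · apply mul_left_cancel₀ hr; linear_combination -h1
  · apply mul_left_cancel₀ hr; linear_combination -h2

lemma c3_inj_x {s : F} {x x' y z : F × F} (h : c3 s x y z = c3 s x' y z) : x = x' := by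
  have e := congrArg (area y z) h
  rw [c3_yzw, c3_yzw] at e
  have h1 := congrArg Prod.fst h
  have h2 := congrArg Prod.snd h
  simp only [c3] at h1 h2
  rw [← e] at h1 h2
  generalize s / area x y z = r at *
  exact Prod.ext (by linear_combination h1) (by linear_combination h2)

end field

section count

variable {F : Type} [Field F] [Fintype F] [DecidableEq F]

/-- number of points `z` with `area x y z` prescribed, when `x ≠ y` -/
lemma card_area_eq (x y : F × F) (hxy : x ≠ y) (t : F) :
    (Finset.univ.filter (fun z : F × F => area x y z = t)).card ≤ Fintype.card F := by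
  classical
  by_cases h1 : y.1 = x.1
  · have h2 : y.2 - x.2 ≠ 0 := by
      intro h
      exact hxy (Prod.ext h1.symm (sub_eq_zero.1 h).symm)
    rw [← Finset.card_univ]
    apply Finset.card_le_card_of_injOn (fun z => z.2) (fun _ _ => Finset.mem_coe.2 (Finset.mem_univ _))
    intro z hz w hw h
    have hz' := (Finset.mem_filter.1 (Finset.mem_coe.1 hz)).2
    have hw' := (Finset.mem_filter.1 (Finset.mem_coe.1 hw)).2
    simp only at h
    unfold area at hz' hw'
    refine Prod.ext ?_ h
    apply mul_left_cancel₀ h2
    rw [h1] at hz' hw'
    rw [← h] at hw'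
    linear_combination hw' - hz'
  · have h2 : y.1 - x.1 ≠ 0 := sub_ne_zero.2 h1
    rw [← Finset.card_univ]
    apply Finset.card_le_card_of_injOn (fun z => z.1) (fun _ _ => Finset.mem_coe.2 (Finset.mem_univ _))
    intro z hz w hw h
    have hz' := (Finset.mem_filter.1 (Finset.mem_coe.1 hz)).2
    have hw' := (Finset.mem_filter.1 (Finset.mem_coe.1 hw)).2
    simp only at h
    unfold area at hz' hw'
    refine Prod.ext h ?_
    apply mul_left_cancel₀ h2
    rw [← h] at hw'
    linear_combination hz' - hw'

/-- number of triples whose area lies in `B` -/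
lemma card_area_mem (B : Finset F) :
    (Finset.univ.filter (fun v : (F × F) × (F × F) × (F × F) =>
      area v.1 v.2.1 v.2.2 ∈ B)).card ≤ (B.card + 1) * Fintype.card F ^ 5 := by
  classical
  set q := Fintype.card F with hq
  have hqpos : 0 < q := Fintype.card_pos
  -- split by x = y
  have hsplit : (Finset.univ.filter (fun v : (F × F) × (F × F) × (F × F) =>
      area v.1 v.2.1 v.2.2 ∈ B)) ⊆
      (Finset.univ.image (fun p : (F × F) × (F × F) => (p.1, p.1, p.2))) ∪
      ((Finset.univ ×ˢ Finset.univ : Finset ((F × F) × (F × F))).filter (fun p => p.1 ≠ p.2)).biUnion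
        (fun p => B.biUnion (fun t => (Finset.univ.filter
          (fun z : F × F => area p.1 p.2 z = t)).image (fun z => (p.1, p.2, z)))) := by
    rintro ⟨x, y, z⟩ hv
    have hv' := (Finset.mem_filter.1 hv).2
    by_cases hxy : x = y
    · subst hxy
      exact Finset.mem_union_left _ (Finset.mem_image.2 ⟨(x, z), Finset.mem_univ _, rfl⟩)
    · refine Finset.mem_union_right _ (Finset.mem_biUnion.2 ⟨(x, y), ?_, ?_⟩)
      · exact Finset.mem_filter.2 ⟨Finset.mem_product.2 ⟨Finset.mem_univ _, Finset.mem_univ _⟩, hxy⟩
      · exact Finset.mem_biUnion.2 ⟨_, hv', Finset.mem_image.2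
          ⟨z, Finset.mem_filter.2 ⟨Finset.mem_univ _, rfl⟩, rfl⟩⟩
  refine (Finset.card_le_card hsplit).trans ((Finset.card_union_le _ _).trans ?_)
  have b1 : (Finset.univ.image (fun p : (F × F) × (F × F) => (p.1, p.1, p.2))).card ≤ q ^ 4 := by
    refine Finset.card_image_le.trans ?_
    rw [Finset.card_univ, Fintype.card_prod, Fintype.card_prod, ← hq]
    apply le_of_eq; ring
  have b2 : (((Finset.univ ×ˢ Finset.univ : Finset ((F × F) × (F × F))).filter
      (fun p => p.1 ≠ p.2)).biUnion
        (fun p => B.biUnion (fun t => (Finset.univ.filter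
          (fun z : F × F => area p.1 p.2 z = t)).image (fun z => (p.1, p.2, z))))).card
      ≤ q ^ 4 * (B.card * q) := by
    refine (Finset.card_biUnion_le_card_mul _ _ (B.card * q) ?_).trans ?_
    · intro p hp
      refine Finset.card_biUnion_le_card_mul _ _ q ?_
      intro t _
      exact Finset.card_image_le.trans (card_area_eq _ _ (Finset.mem_filter.1 hp).2 t)
    · apply Nat.mul_le_mul_right
      refine (Finset.card_filter_le _ _).trans ?_
      rw [Finset.card_product, Finset.card_univ, Fintype.card_prod, ← hq]
      apply le_of_eq; ring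
  calc _ ≤ q ^ 4 + q ^ 4 * (B.card * q) := Nat.add_le_add b1 b2
    _ ≤ q ^ 5 + q ^ 4 * (B.card * q) := by
        apply Nat.add_le_add_right
        exact Nat.pow_le_pow_right hqpos (by norm_num)
    _ = (B.card + 1) * q ^ 5 := by ring

end count

end Pool.Agent.H662R3
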