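import Pool.Agent.H741R4.QStmts

set_option autoImplicit false

open MeasureTheory Filter Topology Metric

namespace Pool.Agent.H662R3.CD

theorem intg (μ : Measure ℝ) [IsProbabilityMeasure μ] {w : ℝ → ℝ} {B : ℝ}
    (hB : ∀ t, |w t| ≤ B) (hc : Continuous w) (t : ℝ) : Integrable (fun s => w (t + s)) μ := by
  refine Integrable.of_bound (C := B) (hc.comp (by fun_prop)).aestronglyMeasurable
    (Eventually.of_forall fun s => ?_)
  rw [Real.norm_eq_abs]
  exact hB _

theorem lemmaA (μ : Measure ℝ) [IsProbabilityMeasure μ] (w : ℝ → ℝ) (B : ℝ)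
    (hB : ∀ t, |w t| ≤ B) (huc : UniformContinuous w)
    (hD : Tendsto (fun t => w t - ∫ s, w (t + s) ∂μ) atBot (𝓝 0)) (M : ℝ)
    (hM : ∀ η : ℝ, 0 < η → ∀ᶠ t in atBot, w t ≤ M + η)
    (tn : ℕ → ℝ) (htn : Tendsto tn atTop atBot) (hw : Tendsto (fun n => w (tn n)) atTop (𝓝 M))
    (s0 : ℝ) (hs0 : ∀ r : ℝ, 0 < r → 0 < μ (ball s0 r)) :
    Tendsto (fun n => w (tn n + s0)) atTop (𝓝 M) := by
  have hc : Continuous w := huc.continuous
  -- positive parts
  have hv : Tendsto (fun n => ∫ s, max (w (tn n + s) - M) 0 ∂μ) atTop (𝓝 0) := by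
    have h1 : Tendsto (fun n => ∫ s, max (w (tn n + s) - M) 0 ∂μ) atTop
        (𝓝 (∫ s, (0 : ℝ) ∂μ)) := by
      refine tendsto_integral_of_dominated_convergence (fun _ => B + |M|) (fun n => ?_)
        (integrable_const _) (fun n => ?_) ?_
      · exact Continuous.aestronglyMeasurable (by fun_prop)
      · refine Eventually.of_forall fun s => ?_
        rw [Real.norm_of_nonneg (le_max_right _ _)]
        have h2 := hB (tn n + s)
        have h3 := abs_le.1 h2
        have h4 := neg_abs_le M
        refine max_le (by linarith [h3.2]) ?_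
        have := abs_nonneg (w (tn n + s))
        have := abs_nonneg M
        linarith
      · refine Eventually.of_forall fun s => ?_
        have h5 : Tendsto (fun n => tn n + s) atTop atBot := tendsto_atBot_add_const_right _ s htn
        rw [Metric.tendsto_atTop]
        intro ε hε
        have h6 := h5.eventually (hM (ε / 2) (by linarith))
        obtain ⟨N, hN⟩ := eventually_atTop.1 h6
        refine ⟨N, fun n hn => ?_⟩
        have h7 := hN n hn
        rw [Real.dist_eq, sub_zero, abs_of_nonneg (le_max_right _ _)]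
        refine max_lt (by linarith) hε
    simpa using h1
  have hI : Tendsto (fun n => ∫ s, w (tn n + s) ∂μ) atTop (𝓝 M) := by
    have h1 := hD.comp htn
    have h2 : Tendsto (fun n => w (tn n) - (w (tn n) - ∫ s, w (tn n + s) ∂μ)) atTop
        (𝓝 (M - 0)) := hw.sub h1
    simpa using h2
  rw [Metric.tendsto_atTop]
  intro ε hε
  have hθ : 0 < ε / 4 := by linarith
  obtain ⟨r, hr, hrw⟩ := Metric.uniformContinuous_iff.1 huc (ε / 4) hθ
  set p : ℝ := μ.real (ball s0 r) with hp
  have hp0 : 0 < p := by
    rw [hp, Measure.real]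
    exact ENNReal.toReal_pos (hs0 r hr).ne' (measure_ne_top _ _)
  have hR : Tendsto (fun n => (∫ s, max (w (tn n + s) - M) 0 ∂μ) + (M - ∫ s, w (tn n + s) ∂μ))
      atTop (𝓝 0) := by
    have := hv.add (tendsto_const_nhds (x := M) |>.sub hI)
    simpa using this
  have h1 := (hR.eventually (gt_mem_nhds (mul_pos hp0 hθ)))
  have h2 : Tendsto (fun n => tn n + s0) atTop atBot := tendsto_atBot_add_const_right _ s0 htn
  have h3 := h2.eventually (hM (ε / 2) (by linarith))
  obtain ⟨N, hN⟩ := eventually_atTop.1 (h1.and h3)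
  refine ⟨N, fun n hn => ?_⟩
  obtain ⟨h4, h5⟩ := hN n hn
  have h6 : (∫ s, w (tn n + s) ∂μ) - M ≤
      (∫ s, max (w (tn n + s) - M) 0 ∂μ) - p * (M - w (tn n + s0) - ε / 4) := by
    have e1 : (∫ s, w (tn n + s) ∂μ) - M = ∫ s, (w (tn n + s) - M) ∂μ := by
      rw [integral_sub (intg μ hB hc _) (integrable_const _)]
      simp
    have e2 : (∫ s, max (w (tn n + s) - M) 0 ∂μ) - p * (M - w (tn n + s0) - ε / 4) =
        ∫ s, (max (w (tn n + s) - M) 0 -
          (ball s0 r).indicator (fun _ => (M - w (tn n + s0) - ε / 4)) s) ∂μ := by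
      rw [integral_sub, integral_indicator_const _ measurableSet_ball, smul_eq_mul]
      · refine Integrable.of_bound (C := B + |M|)
          (Continuous.aestronglyMeasurable (by fun_prop)) (Eventually.of_forall fun s => ?_)
        rw [Real.norm_of_nonneg (le_max_right _ _)]
        have h2 := hB (tn n + s)
        have h3 := abs_le.1 h2
        have h4 := neg_abs_le M
        refine max_le (by linarith [h3.2]) ?_
        have := abs_nonneg (w (tn n + s))
        have := abs_nonneg M
        linarith
      · exact (integrable_const _).indicator measurableSet_ball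
    rw [e1, e2]
    refine integral_mono ((intg μ hB hc _).sub (integrable_const _)) ?_ (fun s => ?_)
    · refine Integrable.sub ?_ ((integrable_const _).indicator measurableSet_ball)
      refine Integrable.of_bound (C := B + |M|)
          (Continuous.aestronglyMeasurable (by fun_prop)) (Eventually.of_forall fun s => ?_)
      rw [Real.norm_of_nonneg (le_max_right _ _)]
      have h2 := hB (tn n + s)
      have h3 := abs_le.1 h2
      have h4 := neg_abs_le M
      refine max_le (by linarith [h3.2]) ?_
      have := abs_nonneg (w (tn n + s))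
      have := abs_nonneg M
      linarith
    · by_cases hs : s ∈ ball s0 r
      · simp only [Set.indicator_of_mem hs]
        have h7 : dist (w (tn n + s)) (w (tn n + s0)) < ε / 4 := by
          apply hrw
          rw [dist_add_left]
          exact hs
        rw [Real.dist_eq] at h7
        have h8 := (abs_lt.1 h7).2
        have h9 : (0 : ℝ) ≤ max (w (tn n + s) - M) 0 := le_max_right _ _
        linarith
      · simp only [Set.indicator_of_notMem hs, sub_zero]
        exact le_max_left _ _
  have h10 : p * (M - w (tn n + s0) - ε / 4) < p * (ε / 4) := by linarith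
  have h11 : M - w (tn n + s0) - ε / 4 < ε / 4 := lt_of_mul_lt_mul_left h10 hp0.le
  rw [Real.dist_eq, abs_lt]
  constructor <;> linarith

theorem lemmaB (μ : Measure ℝ) [IsProbabilityMeasure μ] (G : ℝ → ℝ) (C : ℝ)
    (hB : ∀ t, |G t| ≤ C) (huc : UniformContinuous G)
    (hD : Tendsto (fun t => G t - ∫ s, G (t + s) ∂μ) atBot (𝓝 0))
    (s0 : ℝ) (hs0 : ∀ r : ℝ, 0 < r → 0 < μ (ball s0 r)) (η : ℝ) (hη : 0 < η) :
    ∀ᶠ t in atBot, G t - G (t + s0) ≤ η := by
  have hc : Continuous G := huc.continuous
  set w : ℝ → ℝ := fun t => G t - G (t + s0) with hw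
  have hwB : ∀ t, |w t| ≤ 2 * C := by
    intro t
    have h1 := abs_le.1 (hB t)
    have h2 := abs_le.1 (hB (t + s0))
    rw [abs_le]
    constructor <;> simp only [hw] <;> linarith [h1.1, h1.2, h2.1, h2.2]
  have hwuc : UniformContinuous w := by
    refine huc.sub (huc.comp ?_)
    exact uniformContinuous_id.add uniformContinuous_const
  have hwD : Tendsto (fun t => w t - ∫ s, w (t + s) ∂μ) atBot (𝓝 0) := by
    have h1 := hD.comp (tendsto_atBot_add_const_right atBot s0 tendsto_id)
    have h2 := hD.sub h1
    rw [sub_zero] at h2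
    refine h2.congr fun t => ?_
    simp only [Function.comp, id, hw]
    rw [integral_sub (intg μ hB hc t)]
    · have e : (fun s => G (t + s0 + s)) = fun s => G (t + s + s0) := by
        funext s; congr 1; ring
      rw [e]
      ring
    · have e : (fun s => G (t + s + s0)) = fun s => G (t + s0 + s) := by
        funext s; congr 1; ring
      rw [e]
      exact intg μ hB hc _
  have hbd : IsBoundedUnder (· ≤ ·) atBot w :=
    isBoundedUnder_of ⟨2 * C, fun t => (abs_le.1 (hwB t)).2⟩
  have hcb : IsCoboundedUnder (· ≤ ·) atBot w :=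
    (isBoundedUnder_of ⟨-(2 * C), fun t => (abs_le.1 (hwB t)).1⟩ :
      IsBoundedUnder (· ≥ ·) atBot w).isCoboundedUnder_le
  set M : ℝ := limsup w atBot with hM
  have hup : ∀ η' : ℝ, 0 < η' → ∀ᶠ t in atBot, w t ≤ M + η' := by
    intro η' hη'
    have h1 : limsup w atBot < M + η' := by rw [← hM]; linarith
    exact (eventually_lt_of_limsup_lt h1 hbd).mono fun t ht => ht.le
  have hfr : ∀ n : ℕ, ∃ t : ℝ, t ≤ -(n : ℝ) ∧ M - 1 / ((n : ℝ) + 1) < w t ∧
      w t ≤ M + 1 / ((n : ℝ) + 1) := by
    intro n
    have hpos : (0 : ℝ) < 1 / ((n : ℝ) + 1) := by positivity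
    have h1 : M - 1 / ((n : ℝ) + 1) < limsup w atBot := by rw [← hM]; linarith
    have h2 := frequently_lt_of_lt_limsup hcb h1
    have h3 := (h2.and_eventually ((hup _ hpos).and (eventually_le_atBot (-(n : ℝ))))).exists
    obtain ⟨t, h4, h5, h6⟩ := h3
    exact ⟨t, h6, h4, h5⟩
  choose tn ht1 ht2 ht3 using hfr
  have htn : Tendsto tn atTop atBot := by
    refine tendsto_atBot_mono ht1 ?_
    exact tendsto_neg_atTop_atBot.comp tendsto_natCast_atTop_atTop
  have hwt : Tendsto (fun n => w (tn n)) atTop (𝓝 M) := by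
    have h0 : Tendsto (fun n : ℕ => 1 / ((n : ℝ) + 1)) atTop (𝓝 0) :=
      tendsto_one_div_add_atTop_nhds_zero_nat
    refine tendsto_of_tendsto_of_tendsto_of_le_of_le (g := fun n : ℕ => M - 1 / ((n : ℝ) + 1))
      (h := fun n : ℕ => M + 1 / ((n : ℝ) + 1)) ?_ ?_ (fun n => (ht2 n).le) ht3
    · simpa using tendsto_const_nhds.sub h0
    · simpa using tendsto_const_nhds.add h0
  have hall : ∀ j : ℕ, Tendsto (fun n => w (tn n + j * s0)) atTop (𝓝 M) := by
    intro j
    induction j with
    | zero => simpa using hwt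
    | succ j ih =>
      have h1 := lemmaA μ w (2 * C) hwB hwuc hwD M hup (fun n => tn n + j * s0)
        (tendsto_atBot_add_const_right _ _ htn) ih s0 hs0
      refine h1.congr fun n => ?_
      congr 1
      push_cast
      ring
  have hsum : ∀ k : ℕ, (k : ℝ) * M ≤ 2 * C := by
    intro k
    have h1 : Tendsto (fun n => ∑ j ∈ Finset.range k, w (tn n + j * s0)) atTop
        (𝓝 (∑ _j ∈ Finset.range k, M)) := tendsto_finset_sum _ fun j _ => hall j
    rw [Finset.sum_const, Finset.card_range, nsmul_eq_mul] at h1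
    refine le_of_tendsto h1 (Eventually.of_forall fun n => ?_)
    have h2 : ∀ k : ℕ, ∑ j ∈ Finset.range k, w (tn n + j * s0) = G (tn n) - G (tn n + k * s0) := by
      intro k
      induction k with
      | zero => simp
      | succ k ih =>
        rw [Finset.sum_range_succ, ih]
        simp only [hw]
        have e : tn n + ((k + 1 : ℕ) : ℝ) * s0 = tn n + k * s0 + s0 := by push_cast; ring
        rw [e]
        ring
    rw [h2]
    have h3 := abs_le.1 (hB (tn n))
    have h4 := abs_le.1 (hB (tn n + k * s0))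
    linarith [h3.2, h4.1]
  have hM0 : M ≤ 0 := by
    by_contra hcon
    push Not at hcon
    obtain ⟨k, hk⟩ := exists_nat_gt (2 * C / M)
    rw [div_lt_iff₀ hcon] at hk
    have := hsum k
    linarith
  filter_upwards [hup η hη] with t ht
  simp only [hw] at ht
  linarith

theorem taskCD : Pool.Agent.H741R4.Q.TaskCD := by
  intro μ _ g C hB huc hD hnc
  have hc : Continuous g := huc.continuous
  have hsupp : ∀ s0 : ℝ, (∀ r : ℝ, 0 < r → 0 < μ (ball s0 r)) →
      Tendsto (fun t => g (t + s0) - g t) atBot (𝓝 0) := by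
    intro s0 hs0
    have h1 := lemmaB μ g C hB huc hD s0 hs0
    have hB' : ∀ t, |(-g t)| ≤ C := fun t => by rw [abs_neg]; exact hB t
    have hD' : Tendsto (fun t => (-g t) - ∫ s, (-g (t + s)) ∂μ) atBot (𝓝 0) := by
      have := hD.neg
      rw [neg_zero] at this
      refine this.congr fun t => ?_
      rw [integral_neg]
      ring
    have h2 := lemmaB μ (fun t => -g t) C hB' huc.neg hD' s0 hs0
    rw [Metric.tendsto_nhds]
    intro ε hε
    filter_upwards [h1 (ε / 2) (by linarith), h2 (ε / 2) (by linarith)] with t ht1 ht2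
    rw [Real.dist_eq, sub_zero, abs_lt]
    constructor <;> linarith
  let S : AddSubgroup ℝ :=
    { carrier := {s | Tendsto (fun t => g (t + s) - g t) atBot (𝓝 0)}
      zero_mem' := by simp
      add_mem' := by
        intro a b ha hb
        simp only [Set.mem_setOf_eq] at ha hb ⊢
        have h1 := (hb.comp (tendsto_atBot_add_const_right atBot a tendsto_id)).add ha
        rw [add_zero] at h1
        refine h1.congr fun t => ?_
        simp only [Function.comp, id]
        rw [add_assoc]
        ring
      neg_mem' := by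
        intro a ha
        simp only [Set.mem_setOf_eq] at ha ⊢
        have h1 := (ha.comp (tendsto_atBot_add_const_right atBot (-a) tendsto_id)).neg
        rw [neg_zero] at h1
        refine h1.congr fun t => ?_
        simp only [Function.comp, id]
        rw [neg_add_cancel_right]
        ring }
  have hSmem : ∀ s, s ∈ S ↔ Tendsto (fun t => g (t + s) - g t) atBot (𝓝 0) := fun s => Iff.rfl
  have hnull : μ {s | ¬ ∀ r : ℝ, 0 < r → 0 < μ (ball s r)} = 0 := by
    refine measure_null_of_locally_null _ fun x hx => ?_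
    simp only [Set.mem_setOf_eq] at hx
    push Not at hx
    obtain ⟨r, hr, hr0⟩ := hx
    exact ⟨ball x r, mem_nhdsWithin_of_mem_nhds (ball_mem_nhds x hr), le_antisymm hr0 bot_le⟩
  rcases AddSubgroup.dense_or_cyclic S with hd | ⟨c, hcyc⟩
  · intro s
    rw [Metric.tendsto_nhds]
    intro ε hε
    obtain ⟨δ, hδ, hδw⟩ := Metric.uniformContinuous_iff.1 huc (ε / 2) (by linarith)
    obtain ⟨s', hs', hd'⟩ := hd.exists_dist_lt s hδ
    have h1 := (hSmem s').1 hs'
    rw [Metric.tendsto_nhds] at h1
    filter_upwards [h1 (ε / 2) (by linarith)] with t ht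
    have h2 : dist (g (t + s)) (g (t + s')) < ε / 2 := by
      apply hδw
      rw [dist_add_left]
      exact hd'
    rw [Real.dist_eq] at h2 ht ⊢
    rw [sub_zero] at ht ⊢
    have e : g (t + s) - g t = (g (t + s) - g (t + s')) + (g (t + s') - g t) := by ring
    rw [e]
    exact (abs_add_le _ _).trans_lt (by linarith)
  · exfalso
    apply hnc
    refine ⟨c, ?_⟩
    have h1 : ∀ᵐ s ∂μ, ∀ r : ℝ, 0 < r → 0 < μ (ball s r) := by
      rw [ae_iff]
      exact hnull
    filter_upwards [h1] with s hs
    have h2 : s ∈ S := (hSmem s).2 (hsupp s hs)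
    rw [hcyc, AddSubgroup.mem_closure_singleton] at h2
    obtain ⟨n, hn⟩ := h2
    refine ⟨n, ?_⟩
    rw [← hn, zsmul_eq_mul]

end Pool.Agent.H662R3.CD
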