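import Pool.Agent.H662R3.Design

set_option autoImplicit false

namespace Pool.Agent.H662R3

open Finset

section

variable {D q M : ℕ} [Fact q.Prime]

lemma card_Pt3 : Fintype.card (Pt q × Pt q × Pt q) = q ^ 6 := by
  simp only [Fintype.card_prod, ZMod.card]
  ring

lemma card_TL : Fintype.card (TL q M) = (q ^ 6) ^ M := by
  rw [Fintype.card_fun, card_Pt3, Fintype.card_fin]

lemma card_bad_block (e1 e : Fin M) (hne : e1 ≠ e) (m B : ℕ) (hm : 0 < m) (hD : 2 ≤ D)
    (hB : ∀ s, s < 2 * lev D e1 → (q / m + 1) * (2 * s + 1) + s ≤ B) :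
    (univ.filter (fun L : TL q M => ¬ Gd q m (s1 D e1 L) (ar L e))).card ≤
      (B + 1) * q ^ 5 * (q ^ 6) ^ (M - 1) := by
  classical
  set S := univ.filter (fun L : TL q M => ¬ Gd q m (s1 D e1 L) (ar L e)) with hS
  set f : TL q M → ({j : Fin M // j ≠ e} → Pt q × Pt q × Pt q) := fun L j => L j.1 with hf
  have hfib : ∀ a ∈ S.image f, (S.filter (fun L => f L = a)).card ≤ (B + 1) * q ^ 5 := by
    intro a ha
    obtain ⟨L0, hL0, rfl⟩ := mem_image.1 ha
    set Bs : Finset (ZMod q) := univ.filter (fun A => ¬ Gd q m (s1 D e1 L0) A) with hBs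
    have hBscard : Bs.card ≤ B :=
      (card_bad m (s1 D e1 L0) hm).trans (hB _ (gap_lt hD _ _))
    have hle : (S.filter (fun L => f L = f L0)).card ≤
        (univ.filter (fun v : Pt q × Pt q × Pt q => area v.1 v.2.1 v.2.2 ∈ Bs)).card := by
      apply card_le_card_of_injOn (fun L => L e)
      · intro L hL
        have hL' := mem_filter.1 (mem_coe.1 hL)
        have hbad := (mem_filter.1 hL'.1).2
        refine mem_coe.2 (mem_filter.2 ⟨mem_univ _, ?_⟩)
        rw [hBs]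
        refine mem_filter.2 ⟨mem_univ _, ?_⟩
        have hs : s1 D e1 L = s1 D e1 L0 := by
          have h1 : L e1 = L0 e1 := congrFun hL'.2 ⟨e1, hne⟩
          unfold s1
          rw [arne (L := L) (j := e1) rfl, arne (L := L0) (j := e1) rfl, h1]
        rw [hs, arne (L := L) (j := e) rfl] at hbad
        exact hbad
      · intro L hL L' hL' h
        have h1 := (mem_filter.1 (mem_coe.1 hL)).2
        have h2 := (mem_filter.1 (mem_coe.1 hL')).2
        funext j
        by_cases hj : j = e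
        · subst hj; exact h
        · have := congrFun (h1.trans h2.symm) ⟨j, hj⟩
          exact this
    refine hle.trans ((card_area_mem Bs).trans ?_)
    rw [ZMod.card]
    exact Nat.mul_le_mul_right _ (by omega)
  refine (card_le_mul_card_image S _ hfib).trans ?_
  apply Nat.mul_le_mul_left
  refine (card_le_univ _).trans ?_
  rw [Fintype.card_fun, card_Pt3]
  have : Fintype.card {j : Fin M // j ≠ e} = M - 1 := by
    rw [Fintype.card_subtype_compl]
    simp
  rw [this]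

/-- bad labels, one block, with a factor `D` -/
lemma D_card_bad_block (e1 e : Fin M) (hlt : e1 < e) (hD : 2 ≤ D)
    (hq : 6 * D * lev D M ≤ q) :
    D * (univ.filter (fun L : TL q M => ¬ Gd q (lev D e) (s1 D e1 L) (ar L e))).card ≤
      5 * (q ^ 6) ^ M := by
  have hlev : D * lev D e1 ≤ lev D e := lev_mono hD hlt
  have hlevM : lev D e1 ≤ lev D M := by
    unfold lev
    exact Nat.pow_le_pow_right (by omega) (by have := e1.2; omega)
  set l := lev D e1 with hl
  set m := lev D e with hm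
  have hmpos : 0 < m := lev_pos hD _
  have hlpos : 0 < l := lev_pos hD _
  have h1 := card_bad_block (q := q) e1 e hlt.ne m ((q / m + 1) * (4 * l) + 2 * l - 1) hmpos hD (by
    intro s hs
    have h2 : (q / m + 1) * (2 * s + 1) ≤ (q / m + 1) * (4 * l) :=
      Nat.mul_le_mul_left _ (by omega)
    have h3 : s ≤ 2 * l - 1 := by omega
    omega)
  have h0 : (q / m + 1) * (4 * l) + 2 * l - 1 + 1 = (q / m + 1) * (4 * l) + 2 * l := by omega
  rw [h0] at h1
  have hkey : D * ((q / m + 1) * (4 * l) + 2 * l) ≤ 5 * q := by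
    have a1 : (q / m) * m ≤ q := Nat.div_mul_le_self q m
    have a2 : (q / m) * (D * l) ≤ q := (Nat.mul_le_mul_left _ hlev).trans a1
    have a3 : 6 * D * l ≤ q := (Nat.mul_le_mul_left _ hlevM).trans hq
    nlinarith
  have hMpos : 0 < M := by have := e.2; omega
  have hpow : (q ^ 6) ^ M = q ^ 6 * (q ^ 6) ^ (M - 1) := by
    rw [← pow_succ']
    congr 1
    omega
  calc D * (univ.filter (fun L : TL q M => ¬ Gd q m (s1 D e1 L) (ar L e))).card
      ≤ D * (((q / m + 1) * (4 * l) + 2 * l) * q ^ 5 * (q ^ 6) ^ (M - 1)) :=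
        Nat.mul_le_mul_left _ h1
    _ = D * ((q / m + 1) * (4 * l) + 2 * l) * (q ^ 5 * (q ^ 6) ^ (M - 1)) := by ring
    _ ≤ 5 * q * (q ^ 5 * (q ^ 6) ^ (M - 1)) := Nat.mul_le_mul_right _ hkey
    _ = 5 * (q ^ 6) ^ M := by rw [hpow]; ring

open Classical in
/-- number of good labels -/
lemma card_good (i t : ℕ) (ht : t + 2 ^ (i + 1) < M) (hD : 2 ≤ D)
    (hq : 6 * D * lev D M ≤ q) :
    D * (q ^ 6) ^ M ≤ D * (univ.filter (fun L : TL q M => Good D i t L)).card +
      10 * (q ^ 6) ^ M := by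
  have h12 := e12 i t
  have h23 := e23 i t
  have b1 := D_card_bad_block (q := q) (D := D) (⟨t, by omega⟩ : Fin M) ⟨t + 2 ^ i, by omega⟩
    (by rw [Fin.mk_lt_mk]; omega) hD hq
  have b2 := D_card_bad_block (q := q) (D := D) (⟨t, by omega⟩ : Fin M) ⟨t + 2 ^ (i + 1), by omega⟩
    (by rw [Fin.mk_lt_mk]; omega) hD hq
  simp only at b1 b2
  have hcov : (univ : Finset (TL q M)) ⊆ (univ.filter (fun L : TL q M => Good D i t L)) ∪
      ((univ.filter (fun L : TL q M => ¬ Gd q (lev D (t + 2 ^ i)) (s1 D t L) (ar L (t + 2 ^ i)))) ∪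
      (univ.filter (fun L : TL q M =>
        ¬ Gd q (lev D (t + 2 ^ (i + 1))) (s1 D t L) (ar L (t + 2 ^ (i + 1)))))) := by
    intro L _
    rw [mem_union, mem_union, mem_filter, mem_filter, mem_filter]
    by_cases g1 : Gd q (lev D (t + 2 ^ i)) (s1 D t L) (ar L (t + 2 ^ i))
    · by_cases g2 : Gd q (lev D (t + 2 ^ (i + 1))) (s1 D t L) (ar L (t + 2 ^ (i + 1)))
      · exact Or.inl ⟨mem_univ _, ht, g1, g2⟩
      · exact Or.inr (Or.inr ⟨mem_univ _, g2⟩)
    · exact Or.inr (Or.inl ⟨mem_univ _, g1⟩)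
  have hc := card_le_card hcov
  rw [card_univ, card_TL] at hc
  have k1 := card_union_le (univ.filter (fun L : TL q M => Good D i t L))
    ((univ.filter (fun L : TL q M => ¬ Gd q (lev D (t + 2 ^ i)) (s1 D t L) (ar L (t + 2 ^ i)))) ∪
      (univ.filter (fun L : TL q M =>
        ¬ Gd q (lev D (t + 2 ^ (i + 1))) (s1 D t L) (ar L (t + 2 ^ (i + 1))))))
  have k2 := card_union_le
    (univ.filter (fun L : TL q M => ¬ Gd q (lev D (t + 2 ^ i)) (s1 D t L) (ar L (t + 2 ^ i))))
    (univ.filter (fun L : TL q M =>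
        ¬ Gd q (lev D (t + 2 ^ (i + 1))) (s1 D t L) (ar L (t + 2 ^ (i + 1)))))
  have hc2 := Nat.mul_le_mul_left D (hc.trans (k1.trans (Nat.add_le_add_left k2 _)))
  rw [mul_add, mul_add] at hc2
  omega

end

open Classical in
/-- the main combinatorial statement -/
theorem core (K : ℕ) (hK : 2 ≤ K) :
    ∃ (V : Finset Q4) (W : Finset (ℕ × ℕ × ℕ)), V.Nonempty ∧
    (∀ v ∈ V, Inc v) ∧ (∀ v ∈ V, st v ∈ W) ∧ (∀ v ∈ V, en v ∈ W) ∧
    (∀ v ∈ V, f3 v ∈ W) ∧ (∀ v ∈ V, f2 v ∈ W) ∧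
    Set.InjOn st (V : Set Q4) ∧ Set.InjOn en (V : Set Q4) ∧
    Set.InjOn f3 (V : Set Q4) ∧ Set.InjOn f2 (V : Set Q4) ∧
    (K - 1) ^ 2 * W.card ≤ (K + 1) ^ 2 * V.card := by
  set M := K * 2 ^ K with hM
  set D := 10 * K with hDdef
  have hD : 2 ≤ D := by omega
  set l := 2 * lev D M with hl
  have hlpos : 0 < l := by have := lev_pos hD M; omega
  obtain ⟨q, hq, hqp⟩ := Nat.exists_infinite_primes (6 * D * lev D M)
  have : Fact q.Prime := ⟨hqp⟩
  set Q := (q ^ 6) ^ M with hQ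
  have hQpos : 0 < Q := by
    have := hqp.pos
    positivity
  set P : Finset (ℕ × ℕ × ℕ) := range K ×ˢ (range (M - 2 ^ K) ×ˢ range (K * l)) with hP
  set G : Finset ((ℕ × ℕ × ℕ) × TL q M) :=
    (P ×ˢ univ).filter (fun x => Good D x.1.1 x.1.2.1 x.2) with hG
  set V : Finset Q4 := G.image (fun x => tau D x.1.1 x.1.2.1 x.1.2.2 x.2) with hV
  set W : Finset (ℕ × ℕ × ℕ) :=
    ((range (K + 1) ×ˢ (range M ×ˢ range ((K + 1) * l))) ×ˢ (univ : Finset (TL q M))).image
      (fun x => w D x.1.1 x.1.2.1 x.1.2.2 x.2) with hW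
  have hgood : ∀ x ∈ G, x.1.1 < K ∧ x.1.2.1 < M - 2 ^ K ∧ x.1.2.2 < K * l ∧
      Good D x.1.1 x.1.2.1 x.2 := by
    intro x hx
    rw [hG, mem_filter, mem_product, hP, mem_product, mem_product, mem_range, mem_range,
      mem_range] at hx
    exact ⟨hx.1.1.1, hx.1.1.2.1, hx.1.1.2.2, hx.2⟩
  have hmemW : ∀ (i t a : ℕ) (L : TL q M), i ≤ K → t < M → a < (K + 1) * l →
      w D i t a L ∈ W := by
    intro i t a L hi ht ha
    rw [hW]
    refine mem_image.2 ⟨((i, t, a), L), ?_, rfl⟩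
    rw [mem_product, mem_product, mem_product, mem_range, mem_range, mem_range]
    exact ⟨⟨by simp only; omega, ht, ha⟩, mem_univ _⟩
  have hKl : (K + 1) * l = K * l + l := by ring
  have hs1 : ∀ (t : ℕ) (L : TL q M), t < M → s1 D t L < l := by
    intro t L ht
    have h1 := gap_lt hD t (ar L t)
    have h2 := lev_mono hD ht
    have h3 : lev D t ≤ D * lev D t := Nat.le_mul_of_pos_left _ (by omega)
    unfold s1
    omega
  -- injectivity of st ∘ tau
  have injst : ∀ x ∈ G, ∀ y ∈ G, st (tau D x.1.1 x.1.2.1 x.1.2.2 x.2) =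
      st (tau D y.1.1 y.1.2.1 y.1.2.2 y.2) → x = y := by
    rintro ⟨⟨i, t, a⟩, L⟩ hx ⟨⟨i', t', a'⟩, L'⟩ hy h
    rw [st_tau, st_tau] at h
    obtain ⟨h1, h2, h3, h4⟩ := w_inj hD h
    simp only at h1 h2 h3 h4
    subst h1 h2 h3 h4
    rfl
  have injf3 : ∀ x ∈ G, ∀ y ∈ G, f3 (tau D x.1.1 x.1.2.1 x.1.2.2 x.2) =
      f3 (tau D y.1.1 y.1.2.1 y.1.2.2 y.2) → x = y := by
    rintro ⟨⟨i, t, a⟩, L⟩ hx ⟨⟨i', t', a'⟩, L'⟩ hy h
    have gx := (hgood _ hx).2.2.2
    have gy := (hgood _ hy).2.2.2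
    simp only at gx gy h
    rw [f3_tau gx, f3_tau gy] at h
    obtain ⟨h1, h2, h3, h4⟩ := w_inj hD h
    have h1' : i = i' := by omega
    subst h1' h2 h3
    have ea0 := congrArg la h4
    have eb0 := congrArg lb h4
    have ea : la L = la L' := ea0
    have eb : lb L = lb L' := eb0
    have ec := congrArg lc h4
    have hL := inj_c gx gy ea eb ec
    subst hL
    rfl
  have injf2 : ∀ x ∈ G, ∀ y ∈ G, f2 (tau D x.1.1 x.1.2.1 x.1.2.2 x.2) =
      f2 (tau D y.1.1 y.1.2.1 y.1.2.2 y.2) → x = y := by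
    rintro ⟨⟨i, t, a⟩, L⟩ hx ⟨⟨i', t', a'⟩, L'⟩ hy h
    have gx := (hgood _ hx).2.2.2
    have gy := (hgood _ hy).2.2.2
    simp only at gx gy h
    rw [f2_tau gx, f2_tau gy] at h
    obtain ⟨h1, h2, h3, h4⟩ := w_inj hD h
    subst h1 h3
    have h2' : t = t' := Nat.add_right_cancel h2
    subst h2'
    have ea0 := congrArg la h4
    have eb0 := congrArg lb h4
    have ea : la L = la L' := ea0
    have eb : lc L = lc L' := eb0
    have ec := congrArg lc h4
    have hL := inj_b gx gy ea eb ec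
    subst hL
    rfl
  have injen : ∀ x ∈ G, ∀ y ∈ G, en (tau D x.1.1 x.1.2.1 x.1.2.2 x.2) =
      en (tau D y.1.1 y.1.2.1 y.1.2.2 y.2) → x = y := by
    rintro ⟨⟨i, t, a⟩, L⟩ hx ⟨⟨i', t', a'⟩, L'⟩ hy h
    have gx := (hgood _ hx).2.2.2
    have gy := (hgood _ hy).2.2.2
    simp only at gx gy h
    rw [en_tau gx, en_tau gy] at h
    obtain ⟨h1, h2, h3, h4⟩ := w_inj hD h
    subst h1
    have h2' : t = t' := Nat.add_right_cancel h2
    subst h2'
    have ea0 := congrArg la h4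
    have eb0 := congrArg lb h4
    have ea : lb L = lb L' := ea0
    have eb : lc L = lc L' := eb0
    have ec := congrArg lc h4
    have hL := inj_a gx gy ea eb ec
    subst hL
    have h3' : a = a' := Nat.add_right_cancel h3
    subst h3'
    rfl
  -- sizes
  have hVcard : V.card = G.card := by
    rw [hV]
    apply card_image_of_injOn
    intro x hx y hy h
    exact injst x (mem_coe.1 hx) y (mem_coe.1 hy) (congrArg st h)
  have hWcard : W.card ≤ (K + 1) * (M * ((K + 1) * l)) * Q := by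
    refine card_image_le.trans ?_
    rw [card_product, card_product, card_product, card_range, card_range, card_range, card_univ,
      card_TL]
  have h2K : 0 < 2 ^ K := by positivity
  have hMK : M - 2 ^ K = (K - 1) * 2 ^ K := by
    rw [hM, Nat.sub_mul, one_mul]
  have hGcard : (K - 1) ^ 2 * (K * 2 ^ K * l * Q) ≤ G.card := by
    have e1 : G.card = ∑ p ∈ P, (univ.filter (fun L : TL q M => Good D p.1 p.2.1 L)).card := by
      rw [hG, card_filter, sum_product]
      refine sum_congr rfl fun p _ => ?_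
      rw [card_filter]
    have e2 : ∀ p ∈ P, (K - 1) * Q ≤
        K * (univ.filter (fun L : TL q M => Good D p.1 p.2.1 L)).card := by
      intro p hp
      rw [hP, mem_product, mem_product, mem_range, mem_range, mem_range] at hp
      have ht : p.2.1 + 2 ^ (p.1 + 1) < M := by
        have h1 : 2 ^ (p.1 + 1) ≤ 2 ^ K := Nat.pow_le_pow_right (by norm_num) (by omega)
        omega
      have h1 := card_good (q := q) p.1 p.2.1 ht hD hq
      rw [← hQ, hDdef] at h1
      have h2 : 10 * (K * Q) ≤ 10 * (K * (univ.filter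
          (fun L : TL q M => Good (10 * K) p.1 p.2.1 L)).card + Q) := by
        calc 10 * (K * Q) = 10 * K * Q := by ring
          _ ≤ _ := h1
          _ = _ := by ring
      have h3 : K * Q ≤ K * (univ.filter
          (fun L : TL q M => Good (10 * K) p.1 p.2.1 L)).card + Q :=
        Nat.le_of_mul_le_mul_left h2 (by norm_num)
      rw [Nat.sub_mul, one_mul]
      exact Nat.sub_le_of_le_add h3
    have e3 : P.card * ((K - 1) * Q) ≤ K * G.card := by
      rw [e1, mul_sum, ← smul_eq_mul, ← sum_const]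
      exact sum_le_sum e2
    have e4 : P.card = K * (((K - 1) * 2 ^ K) * (K * l)) := by
      rw [hP, card_product, card_product, card_range, card_range, card_range, hMK]
    rw [e4] at e3
    have e5 : K * ((K - 1) ^ 2 * (K * 2 ^ K * l * Q)) ≤ K * G.card := by
      refine le_trans (le_of_eq ?_) e3
      ring
    exact Nat.le_of_mul_le_mul_left e5 (by omega)
  refine ⟨V, W, ?_, ?_, ?_, ?_, ?_, ?_, ?_, ?_, ?_, ?_, ?_⟩
  · rw [← card_pos, hVcard]
    refine lt_of_lt_of_le ?_ hGcard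
    have : 0 < K - 1 := by omega
    positivity
  · intro v hv
    obtain ⟨x, hx, rfl⟩ := mem_image.1 hv
    exact inc_tau hD _ _ _ _
  · intro v hv
    obtain ⟨x, hx, rfl⟩ := mem_image.1 hv
    obtain ⟨h1, h2, h3, h4⟩ := hgood x hx
    exact hmemW _ _ _ _ h1.le (by omega) (by omega)
  · intro v hv
    obtain ⟨x, hx, rfl⟩ := mem_image.1 hv
    obtain ⟨h1, h2, h3, h4⟩ := hgood x hx
    rw [en_tau h4]
    have k1 := h4.1
    have k2 := e23 x.1.1 x.1.2.1
    have k3 := hs1 x.1.2.1 x.2 (by omega)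
    exact hmemW _ _ _ _ h1.le (by omega) (by omega)
  · intro v hv
    obtain ⟨x, hx, rfl⟩ := mem_image.1 hv
    obtain ⟨h1, h2, h3, h4⟩ := hgood x hx
    rw [f3_tau h4]
    exact hmemW _ _ _ _ (by omega) (by omega) (by omega)
  · intro v hv
    obtain ⟨x, hx, rfl⟩ := mem_image.1 hv
    obtain ⟨h1, h2, h3, h4⟩ := hgood x hx
    rw [f2_tau h4]
    have k1 := h4.1
    have k2 := e23 x.1.1 x.1.2.1
    exact hmemW _ _ _ _ h1.le (by omega) (by omega)
  · intro u hu v hv h
    obtain ⟨x, hx, rfl⟩ := mem_image.1 (mem_coe.1 hu)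
    obtain ⟨y, hy, rfl⟩ := mem_image.1 (mem_coe.1 hv)
    rw [injst x hx y hy h]
  · intro u hu v hv h
    obtain ⟨x, hx, rfl⟩ := mem_image.1 (mem_coe.1 hu)
    obtain ⟨y, hy, rfl⟩ := mem_image.1 (mem_coe.1 hv)
    rw [injen x hx y hy h]
  · intro u hu v hv h
    obtain ⟨x, hx, rfl⟩ := mem_image.1 (mem_coe.1 hu)
    obtain ⟨y, hy, rfl⟩ := mem_image.1 (mem_coe.1 hv)
    rw [injf3 x hx y hy h]
  · intro u hu v hv h
    obtain ⟨x, hx, rfl⟩ := mem_image.1 (mem_coe.1 hu)
    obtain ⟨y, hy, rfl⟩ := mem_image.1 (mem_coe.1 hv)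
    rw [injf2 x hx y hy h]
  · rw [hVcard]
    calc (K - 1) ^ 2 * W.card ≤ (K - 1) ^ 2 * ((K + 1) * (M * ((K + 1) * l)) * Q) :=
          Nat.mul_le_mul_left _ hWcard
      _ = (K + 1) ^ 2 * ((K - 1) ^ 2 * (K * 2 ^ K * l * Q)) := by rw [hM]; ring
      _ ≤ (K + 1) ^ 2 * G.card := Nat.mul_le_mul_left _ hGcard

end Pool.Agent.H662R3
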