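import Pool.Agent.H662R3.Path

set_option autoImplicit false

namespace Pool.Agent.H662R3

open Finset

/-- face omitting the third point -/
def f3 (v : Q4) : ℕ × ℕ × ℕ := (v.1, v.2.1, v.2.2.2)

/-- face omitting the second point -/
def f2 (v : Q4) : ℕ × ℕ × ℕ := (v.1, v.2.2.1, v.2.2.2)

/-- gap pair of a triple -/
def gp (p : ℕ × ℕ × ℕ) : ℕ × ℕ := (g p.1 p.2.1, g p.2.1 p.2.2)

lemma gp_inj {p q : ℕ × ℕ × ℕ} (hp : p.1 < p.2.1 ∧ p.2.1 < p.2.2)
    (hq : q.1 < q.2.1 ∧ q.2.1 < q.2.2) (h : gp p = gp q) : p = q := by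
  unfold gp at h
  have h1 := g_inj hp.1 hq.1 (congrArg Prod.fst h)
  have h2 := g_inj hp.2 hq.2 (congrArg Prod.snd h)
  exact Prod.ext h1.1 (Prod.ext h1.2 h2.2)

theorem finish (V : Finset Q4) (W : Finset (ℕ × ℕ × ℕ)) (hne : V.Nonempty)
    (hinc : ∀ v ∈ V, Inc v) (h4 : ∀ v ∈ V, st v ∈ W) (h1 : ∀ v ∈ V, en v ∈ W)
    (h3 : ∀ v ∈ V, f3 v ∈ W) (h2 : ∀ v ∈ V, f2 v ∈ W)
    (i4 : Set.InjOn st (V : Set Q4)) (i1 : Set.InjOn en (V : Set Q4))
    (i3 : Set.InjOn f3 (V : Set Q4)) (i2 : Set.InjOn f2 (V : Set Q4))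
    (ε δ : ℝ) (hδ : 0 ≤ δ) (hε : 4 * δ ≤ ε) (hε1 : ε ≤ 1)
    (hW : (W.card : ℝ) ≤ (1 + δ) * V.card) :
    ∃ n : ℕ, 1 ≤ n ∧ ∃ a : ℕ → ℕ,
        (∀ i ∈ Finset.Icc 1 n, 0 < a i) ∧
        (1 - ε) * (n : ℝ) ≤
          (((((Finset.Icc 1 (n - 1)).image (fun i => (a i, a (i + 1)))) ∩
              ((Finset.Icc 1 (n - 2)).image (fun j => (a j + a (j + 1), a (j + 2))))) ∩
              ((Finset.Icc 1 (n - 2)).image (fun k => (a k, a (k + 1) + a (k + 2))))).card : ℝ) := by
  classical
  obtain ⟨Ls, hpos, hinf, hsum, hcard, -⟩ := path V hinc i4 i1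
  set l : List ℕ := Ls.toList.flatten with hl
  have hlen : l.length = V.card + 2 * Multiset.card Ls := by
    rw [hl, List.length_flatten, ← hsum]
    conv_rhs => rw [← Multiset.coe_toList Ls]
    rw [Multiset.map_coe, Multiset.sum_coe]
  have hVpos : 0 < V.card := card_pos.2 hne
  have hlpos : ∀ x ∈ l, 0 < x := by
    intro x hx
    rw [hl, List.mem_flatten] at hx
    obtain ⟨l', hl', hx⟩ := hx
    exact hpos l' (Multiset.mem_toList.1 hl') x hx
  -- number of starts
  have hstarts : Multiset.card Ls ≤ W.card - V.card := by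
    rw [hcard]
    have e1 : (V.image en).card = V.card := card_image_of_injOn i1
    have hsubW : V.image en ⊆ W := by
      intro z hz
      obtain ⟨v, hv, rfl⟩ := mem_image.1 hz
      exact h1 v hv
    have e2 : (W \ V.image en).card = W.card - V.card := by
      rw [card_sdiff_of_subset hsubW, e1]
    rw [← e2]
    apply card_le_card_of_injOn st
    · intro v hv
      have hv' := mem_filter.1 (mem_coe.1 hv)
      exact mem_coe.2 (mem_sdiff.2 ⟨h4 v hv'.1, hv'.2⟩)
    · exact i4.mono (fun v hv => mem_coe.2 (mem_filter.1 (mem_coe.1 hv)).1)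
  have hVW : V.card ≤ W.card := by
    rw [← card_image_of_injOn i1]
    apply card_le_card
    intro z hz
    obtain ⟨v, hv, rfl⟩ := mem_image.1 hz
    exact h1 v hv
  refine ⟨l.length, by omega, fun i => l.getD (i - 1) 1, ?_, ?_⟩
  · intro i hi
    rw [mem_Icc] at hi
    have : i - 1 < l.length := by omega
    simp only [List.getD_eq_getElem _ _ this]
    exact hlpos _ (List.getElem_mem _)
  · set a : ℕ → ℕ := fun i => l.getD (i - 1) 1 with ha
    -- indices
    have hidx : ∀ v ∈ V, ∃ i, 1 ≤ i ∧ i ≤ l.length - 2 ∧ i + 2 ≤ l.length ∧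
        a i = x1 v ∧ a (i + 1) = x2 v ∧ a (i + 2) = x3 v := by
      intro v hv
      obtain ⟨l', hl', hli⟩ := hinf v hv
      have hli2 : [x1 v, x2 v, x3 v] <:+: l :=
        hli.trans (List.infix_of_mem_flatten (Multiset.mem_toList.2 hl'))
      obtain ⟨s, t, hst⟩ := hli2
      have hlens : l.length = s.length + 3 + t.length := by
        rw [← hst]
        simp only [List.length_append, List.length_cons, List.length_nil]
      refine ⟨s.length + 1, by omega, by omega, by omega, ?_, ?_, ?_⟩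
      · rw [ha, ← hst]
        simp [List.getD_eq_getElem?_getD]
      · rw [ha, ← hst]
        simp [List.getD_eq_getElem?_getD]
      · rw [ha, ← hst]
        simp [List.getD_eq_getElem?_getD]
    set I : Finset (ℕ × ℕ × ℕ) := V.image st ∩ V.image f2 ∩ V.image f3 with hI
    have hIinc : ∀ p ∈ I, p.1 < p.2.1 ∧ p.2.1 < p.2.2 := by
      intro p hp
      obtain ⟨v, hv, rfl⟩ := mem_image.1 (mem_inter.1 (mem_inter.1 hp).1).1
      exact ⟨(hinc v hv).1, (hinc v hv).2.1⟩
    have hIcard : (I.image gp).card = I.card := by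
      apply card_image_of_injOn
      intro p hp q hq h
      exact gp_inj (hIinc p (mem_coe.1 hp)) (hIinc q (mem_coe.1 hq)) h
    have hsub : I.image gp ⊆
        ((((Finset.Icc 1 (l.length - 1)).image (fun i => (a i, a (i + 1)))) ∩
              ((Finset.Icc 1 (l.length - 2)).image (fun j => (a j + a (j + 1), a (j + 2))))) ∩
              ((Finset.Icc 1 (l.length - 2)).image
                (fun k => (a k, a (k + 1) + a (k + 2))))) := by
      intro z hz
      obtain ⟨p, hp, rfl⟩ := mem_image.1 hz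
      have hp' := mem_inter.1 hp
      have hp'' := mem_inter.1 hp'.1
      rw [mem_inter, mem_inter]
      refine ⟨⟨?_, ?_⟩, ?_⟩
      · obtain ⟨v, hv, rfl⟩ := mem_image.1 hp''.1
        obtain ⟨i, hi1, hi2, hi3, ha1, ha2, ha3⟩ := hidx v hv
        refine mem_image.2 ⟨i, mem_Icc.2 ⟨hi1, by omega⟩, ?_⟩
        simp only [ha1, ha2]
        rfl
      · obtain ⟨v, hv, rfl⟩ := mem_image.1 hp''.2
        obtain ⟨i, hi1, hi2, hi3, ha1, ha2, ha3⟩ := hidx v hv
        refine mem_image.2 ⟨i, mem_Icc.2 ⟨hi1, hi2⟩, ?_⟩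
        simp only [ha1, ha2, ha3]
        unfold x1 x2 x3
        rw [g_add (hinc v hv).1 (hinc v hv).2.1]
        rfl
      · obtain ⟨v, hv, rfl⟩ := mem_image.1 hp'.2
        obtain ⟨i, hi1, hi2, hi3, ha1, ha2, ha3⟩ := hidx v hv
        refine mem_image.2 ⟨i, mem_Icc.2 ⟨hi1, hi2⟩, ?_⟩
        simp only [ha1, ha2, ha3]
        unfold x1 x2 x3
        rw [g_add (hinc v hv).2.1 (hinc v hv).2.2]
        rfl
    have hle := card_le_card hsub
    rw [hIcard] at hle
    -- size of I
    have hIlow : W.card ≤ I.card + 3 * (W.card - V.card) := by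
      have c4 : (W \ V.image st).card = W.card - V.card := by
        rw [card_sdiff_of_subset, card_image_of_injOn i4]
        intro z hz
        obtain ⟨v, hv, rfl⟩ := mem_image.1 hz
        exact h4 v hv
      have c2 : (W \ V.image f2).card = W.card - V.card := by
        rw [card_sdiff_of_subset, card_image_of_injOn i2]
        intro z hz
        obtain ⟨v, hv, rfl⟩ := mem_image.1 hz
        exact h2 v hv
      have c3 : (W \ V.image f3).card = W.card - V.card := by
        rw [card_sdiff_of_subset, card_image_of_injOn i3]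
        intro z hz
        obtain ⟨v, hv, rfl⟩ := mem_image.1 hz
        exact h3 v hv
      have hcov : W ⊆ I ∪ ((W \ V.image st) ∪ ((W \ V.image f2) ∪ (W \ V.image f3))) := by
        intro z hz
        simp only [hI, mem_union, mem_inter, mem_sdiff]
        tauto
      have hc := card_le_card hcov
      have k1 := card_union_le I ((W \ V.image st) ∪ ((W \ V.image f2) ∪ (W \ V.image f3)))
      have k2 := card_union_le (W \ V.image st) ((W \ V.image f2) ∪ (W \ V.image f3))
      have k3 := card_union_le (W \ V.image f2) (W \ V.image f3)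
      omega
    -- arithmetic
    have r1 : (l.length : ℝ) = V.card + 2 * (Multiset.card Ls : ℝ) := by
      rw [hlen]; push_cast; ring
    have r2 : (Multiset.card Ls : ℝ) ≤ W.card - V.card := by
      have : Multiset.card Ls + V.card ≤ W.card := by omega
      have h := (Nat.cast_le (α := ℝ)).2 this
      push_cast at h
      linarith
    have r3 : (V.card : ℝ) ≤ I.card + 2 * ((W.card : ℝ) - V.card) := by
      have : V.card + 2 * V.card ≤ I.card + 2 * W.card := by omega
      have h := (Nat.cast_le (α := ℝ)).2 this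
      push_cast at h
      linarith
    have r4 : (W.card : ℝ) - V.card ≤ δ * V.card := by linarith
    have r5 : (0 : ℝ) < V.card := by exact_mod_cast hVpos
    refine le_trans ?_ (Nat.cast_le.2 hle)
    have r6 : (l.length : ℝ) ≤ (1 + 2 * δ) * V.card := by
      rw [r1]; linarith
    have r7 : (1 - 2 * δ) * V.card ≤ (I.card : ℝ) := by linarith
    have r8 : (1 - ε) * (l.length : ℝ) ≤ (1 - ε) * ((1 + 2 * δ) * V.card) :=
      mul_le_mul_of_nonneg_left r6 (by linarith)
    have r9 : (1 - ε) * (1 + 2 * δ) ≤ 1 - 2 * δ := by nlinarith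
    have r10 : (1 - ε) * (1 + 2 * δ) * V.card ≤ (1 - 2 * δ) * V.card :=
      mul_le_mul_of_nonneg_right r9 r5.le
    calc (1 - ε) * (l.length : ℝ) ≤ (1 - ε) * ((1 + 2 * δ) * V.card) := r8
      _ = (1 - ε) * (1 + 2 * δ) * V.card := by ring
      _ ≤ (1 - 2 * δ) * V.card := r10
      _ ≤ (I.card : ℝ) := r7

end Pool.Agent.H662R3
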