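import Pool.Agent.H662R3.Gap
import Pool.Agent.H662R3.Seq

set_option autoImplicit false

/-!
The design: labelled points `(a, α)`, `a` a position, `α ∈ (F_q^2)^M` a label, and the 4-tuples.
-/

namespace Pool.Agent.H662R3

open Finset

abbrev Pt (q : ℕ) := ZMod q × ZMod q
abbrev Lab (q M : ℕ) := Fin M → Pt q
abbrev TL (q M : ℕ) := Fin M → Pt q × Pt q × Pt q

section

variable {D q M : ℕ} [Fact q.Prime]

def la (L : TL q M) : Lab q M := fun j => (L j).1
def lb (L : TL q M) : Lab q M := fun j => (L j).2.1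
def lc (L : TL q M) : Lab q M := fun j => (L j).2.2
def mk3 (a b c : Lab q M) : TL q M := fun j => (a j, b j, c j)

/-- area in block `e` -/
def ar (L : TL q M) (e : ℕ) : ZMod q :=
  if h : e < M then area (L ⟨e, h⟩).1 (L ⟨e, h⟩).2.1 (L ⟨e, h⟩).2.2 else 0

/-- the fourth label -/
def dl (s : ℕ) (e2 e3 : ℕ) (L : TL q M) : Lab q M := fun j =>
  if (j : ℕ) = e2 then c2 (s : ZMod q) (L j).1 (L j).2.1 (L j).2.2
  else if (j : ℕ) = e3 then c3 (s : ZMod q) (L j).1 (L j).2.1 (L j).2.2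
  else par (L j).1 (L j).2.1 (L j).2.2

omit [Fact q.Prime] in
lemma mk3_self (L : TL q M) : mk3 (la L) (lb L) (lc L) = L := rfl

lemma ar_abd_e1 (s : ℕ) {e1 e2 e3 : ℕ} (L : TL q M) (h2 : e1 ≠ e2) (h3 : e1 ≠ e3) :
    ar (mk3 (la L) (lb L) (dl s e2 e3 L)) e1 = ar L e1 := by
  unfold ar
  split_ifs with h
  · simp only [mk3, la, lb, dl, h2, h3, if_false]
    exact par_xyw _ _ _
  · rfl

lemma ar_abd_e3 (s : ℕ) {e2 e3 : ℕ} (L : TL q M) (h23 : e3 ≠ e2) (h3 : e3 < M)
    (hA : ar L e3 ≠ 0) :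
    ar (mk3 (la L) (lb L) (dl s e2 e3 L)) e3 = ar L e3 + (s : ZMod q) := by
  unfold ar at hA ⊢
  rw [dif_pos h3] at hA
  rw [dif_pos h3, dif_pos h3]
  simp only [mk3, la, lb, dl, h23, if_false, if_true]
  exact c3_xyw _ _ _ _ hA

lemma ar_acd_e2 (s : ℕ) {e2 e3 : ℕ} (L : TL q M) :
    ar (mk3 (la L) (lc L) (dl s e2 e3 L)) e2 = ar L e2 := by
  unfold ar
  split_ifs with h
  · simp only [mk3, la, lc, dl, if_true]
    exact c2_xzw _ _ _ _
  · rfl

lemma ar_acd_e3 (s : ℕ) {e2 e3 : ℕ} (L : TL q M) (h23 : e3 ≠ e2) (h3 : e3 < M)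
    (hA : ar L e3 ≠ 0) :
    ar (mk3 (la L) (lc L) (dl s e2 e3 L)) e3 = ar L e3 + (s : ZMod q) := by
  unfold ar at hA ⊢
  rw [dif_pos h3] at hA
  rw [dif_pos h3, dif_pos h3]
  simp only [mk3, la, lc, dl, h23, if_false, if_true]
  exact c3_xzw _ _ _ _ hA

lemma ar_bcd_e2 (s : ℕ) {e2 e3 : ℕ} (L : TL q M) (h2 : e2 < M) (hA : ar L e2 ≠ 0) :
    ar (mk3 (lb L) (lc L) (dl s e2 e3 L)) e2 = ar L e2 - (s : ZMod q) := by
  unfold ar at hA ⊢
  rw [dif_pos h2] at hA
  rw [dif_pos h2, dif_pos h2]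
  simp only [mk3, lb, lc, dl, if_true]
  exact c2_yzw _ _ _ _ hA

lemma ar_bcd_e3 (s : ℕ) {e2 e3 : ℕ} (L : TL q M) (h23 : e3 ≠ e2) :
    ar (mk3 (lb L) (lc L) (dl s e2 e3 L)) e3 = ar L e3 := by
  unfold ar
  split_ifs with h
  · simp only [mk3, lb, lc, dl, h23, if_false, if_true]
    exact c3_yzw _ _ _ _
  · rfl

/-! ### points -/

instance : NeZero q := ⟨(Fact.out : q.Prime).ne_zero⟩

/-- number of labels -/
noncomputable def nl (q M : ℕ) [Fact q.Prime] : ℕ := Fintype.card (Lab q M)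

/-- code of a labelled point -/
noncomputable def code (a : ℕ) (α : Lab q M) : ℕ :=
  a * nl q M + (Fintype.equivFin (Lab q M) α : ℕ)

lemma code_lt {a b : ℕ} (h : a < b) (α β : Lab q M) : code a α < code b β := by
  unfold code
  have h1 : (Fintype.equivFin (Lab q M) α : ℕ) < nl q M := Fin.is_lt _
  have h2 : (a + 1) * nl q M ≤ b * nl q M := Nat.mul_le_mul_right _ h
  rw [add_mul, one_mul] at h2
  omega

lemma code_inj {a b : ℕ} {α β : Lab q M} (h : code a α = code b β) : a = b ∧ α = β := by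
  have hab : a = b := by
    rcases lt_trichotomy a b with h1 | h1 | h1
    · exact absurd h (code_lt h1 α β).ne
    · exact h1
    · exact absurd h.symm (code_lt h1 β α).ne
  subst hab
  refine ⟨rfl, ?_⟩
  unfold code at h
  have h2 : (Fintype.equivFin (Lab q M) α : ℕ) = (Fintype.equivFin (Lab q M) β : ℕ) := by omega
  exact (Fintype.equivFin (Lab q M)).injective (Fin.ext h2)

/-- indices -/
abbrev Ix (q M : ℕ) := ℕ × ℕ × ℕ × TL q M

/-- the triple of an index -/
noncomputable def w (D : ℕ) (i t a : ℕ) (L : TL q M) : ℕ × ℕ × ℕ :=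
  (code a (la L), code (a + gap D q t (ar L t)) (lb L),
    code (a + gap D q (t + 2 ^ i) (ar L (t + 2 ^ i))) (lc L))

/-- first gap of an index -/
def s1 (D : ℕ) (t : ℕ) (L : TL q M) : ℕ := gap D q t (ar L t)

/-- the 4-tuple of an index -/
noncomputable def tau (D : ℕ) (i t a : ℕ) (L : TL q M) : Q4 :=
  (code a (la L), code (a + s1 D t L) (lb L),
    code (a + gap D q (t + 2 ^ i) (ar L (t + 2 ^ i))) (lc L),
    code (a + gap D q (t + 2 ^ (i + 1)) (ar L (t + 2 ^ (i + 1)) + (s1 D t L : ZMod q)))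
      (dl (s1 D t L) (t + 2 ^ i) (t + 2 ^ (i + 1)) L))

/-- good indices -/
def Good (D : ℕ) (i t : ℕ) (L : TL q M) : Prop :=
  t + 2 ^ (i + 1) < M ∧ Gd q (lev D (t + 2 ^ i)) (s1 D t L) (ar L (t + 2 ^ i)) ∧
    Gd q (lev D (t + 2 ^ (i + 1))) (s1 D t L) (ar L (t + 2 ^ (i + 1)))

lemma w_inj (hD : 2 ≤ D) {i t a i' t' a' : ℕ} {L L' : TL q M} (h : w D i t a L = w D i' t' a' L') :
    i = i' ∧ t = t' ∧ a = a' ∧ L = L' := by
  unfold w at h
  have h1 := code_inj (congrArg (fun z => z.1) h)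
  have h2 := code_inj (congrArg (fun z => z.2.1) h)
  have h3 := code_inj (congrArg (fun z => z.2.2) h)
  obtain ⟨rfl, ha⟩ := h1
  have ht : t = t' := gap_level hD (Nat.add_left_cancel h2.1)
  have ht2 := gap_level hD (Nat.add_left_cancel h3.1)
  subst ht
  have hi : i = i' := Nat.pow_right_injective (le_refl 2) (Nat.add_left_cancel ht2)
  subst hi
  refine ⟨rfl, rfl, rfl, ?_⟩
  have e1 : L = mk3 (la L) (lb L) (lc L) := rfl
  rw [e1, ha, h2.2, h3.2]
  rfl

lemma e12 (i t : ℕ) : t < t + 2 ^ i := Nat.lt_add_of_pos_right (by positivity)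
lemma e23 (i t : ℕ) : t + 2 ^ i < t + 2 ^ (i + 1) := by
  apply Nat.add_lt_add_left
  exact Nat.pow_lt_pow_right (by norm_num) (by omega)
lemma e23' (i t : ℕ) : t + 2 ^ i + 2 ^ i = t + 2 ^ (i + 1) := by
  rw [pow_succ]; ring

lemma st_tau (D i t a : ℕ) (L : TL q M) : st (tau D i t a L) = w D i t a L := rfl

lemma f3_tau {i t a : ℕ} {L : TL q M} (h : Good D i t L) :
    f3 (tau D i t a L) = w D (i + 1) t a
      (mk3 (la L) (lb L) (dl (s1 D t L) (t + 2 ^ i) (t + 2 ^ (i + 1)) L)) := by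
  have h12 := e12 i t
  have h23 := e23 i t
  unfold f3 tau w
  simp only
  rw [ar_abd_e1 _ _ (by omega) (by omega), ar_abd_e3 _ _ (by omega) h.1 h.2.2.ne_zero]
  rfl

lemma f2_tau {i t a : ℕ} {L : TL q M} (h : Good D i t L) :
    f2 (tau D i t a L) = w D i (t + 2 ^ i) a
      (mk3 (la L) (lc L) (dl (s1 D t L) (t + 2 ^ i) (t + 2 ^ (i + 1)) L)) := by
  have h12 := e12 i t
  have h23 := e23 i t
  unfold f2 tau w
  simp only
  rw [e23', ar_acd_e2, ar_acd_e3 _ _ (by omega) h.1 h.2.2.ne_zero]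
  rfl

lemma en_tau {i t a : ℕ} {L : TL q M} (h : Good D i t L) :
    en (tau D i t a L) = w D i (t + 2 ^ i) (a + s1 D t L)
      (mk3 (lb L) (lc L) (dl (s1 D t L) (t + 2 ^ i) (t + 2 ^ (i + 1)) L)) := by
  have h12 := e12 i t
  have h23 := e23 i t
  have hM := h.1
  unfold en tau w
  simp only
  rw [e23', ar_bcd_e2 _ _ (by omega) h.2.1.ne_zero, ar_bcd_e3 _ _ (by omega), h.2.2.gap_add]
  have k := h.2.1.gap_sub
  have e1 : a + s1 D t L + gap D q (t + 2 ^ i) (ar L (t + 2 ^ i) - (s1 D t L : ZMod q)) =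
      a + gap D q (t + 2 ^ i) (ar L (t + 2 ^ i)) := by
    rw [← k]; ring
  have e2 : a + s1 D t L + gap D q (t + 2 ^ (i + 1)) (ar L (t + 2 ^ (i + 1))) =
      a + (gap D q (t + 2 ^ (i + 1)) (ar L (t + 2 ^ (i + 1))) + s1 D t L) := by ring
  rw [e1, e2]
  rfl

lemma inc_tau (hD : 2 ≤ D) (i t a : ℕ) (L : TL q M) : Inc (tau D i t a L) := by
  refine ⟨code_lt ?_ _ _, code_lt ?_ _ _, code_lt ?_ _ _⟩
  · have h1 := gap_ge (q := q) D t (ar L t)
    have h2 := lev_pos hD t
    unfold s1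
    omega
  · exact Nat.add_lt_add_left (gap_lt_gap hD (e12 i t) _ _) _
  · exact Nat.add_lt_add_left (gap_lt_gap hD (e23 i t) _ _) _

/-! ### injectivity -/

lemma arne {L : TL q M} {j : Fin M} {e : ℕ} (hj : (j : ℕ) = e) :
    ar L e = area (L j).1 (L j).2.1 (L j).2.2 := by
  subst hj
  unfold ar
  rw [dif_pos j.2]

lemma inj_c {i t : ℕ} {L L' : TL q M} (h : Good D i t L) (h' : Good D i t L')
    (ha : la L = la L') (hb : lb L = lb L')
    (hd : dl (s1 D t L) (t + 2 ^ i) (t + 2 ^ (i + 1)) L =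
      dl (s1 D t L') (t + 2 ^ i) (t + 2 ^ (i + 1)) L') : L = L' := by
  have h12 := e12 i t
  have h23 := e23 i t
  have hM := h.1
  have ha' : ∀ j, (L j).1 = (L' j).1 := fun j => congrFun ha j
  have hb' : ∀ j, (L j).2.1 = (L' j).2.1 := fun j => congrFun hb j
  -- block t
  have hs : s1 D t L = s1 D t L' := by
    have ht : t < M := by omega
    have hdj := congrFun hd ⟨t, ht⟩
    simp only [dl] at hdj
    rw [if_neg (by omega), if_neg (by omega), if_neg (by omega), if_neg (by omega),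
      ha', hb'] at hdj
    have hc := par_inj_z hdj
    unfold s1
    rw [arne (L := L) (j := ⟨t, ht⟩) rfl, arne (L := L') (j := ⟨t, ht⟩) rfl, ha', hb', hc]
  have hc' : ∀ j, (L j).2.2 = (L' j).2.2 := by
    intro j
    have hdj := congrFun hd j
    simp only [dl] at hdj
    by_cases h2 : (j : ℕ) = t + 2 ^ i
    · rw [if_pos h2, if_pos h2, ha', hb', hs] at hdj
      have g1 := h.2.1
      have g2 := h'.2.1
      rw [arne h2, ha', hb', hs] at g1
      rw [arne h2] at g2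
      exact c2_inj_z g1.ne_zero g2.ne_zero g1.add_ne_zero hdj
    · by_cases h3 : (j : ℕ) = t + 2 ^ (i + 1)
      · rw [if_neg h2, if_neg h2, if_pos h3, if_pos h3, ha', hb', hs] at hdj
        have g1 := h.2.2
        have g2 := h'.2.2
        rw [arne h3, ha', hb', hs] at g1
        rw [arne h3] at g2
        exact c3_inj_z g1.ne_zero g2.ne_zero g1.add_ne_zero hdj
      · rw [if_neg h2, if_neg h2, if_neg h3, if_neg h3, ha', hb'] at hdj
        exact par_inj_z hdj
  funext j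
  exact Prod.ext (ha' j) (Prod.ext (hb' j) (hc' j))

lemma inj_b {i t : ℕ} {L L' : TL q M} (h : Good D i t L) (h' : Good D i t L')
    (ha : la L = la L') (hc : lc L = lc L')
    (hd : dl (s1 D t L) (t + 2 ^ i) (t + 2 ^ (i + 1)) L =
      dl (s1 D t L') (t + 2 ^ i) (t + 2 ^ (i + 1)) L') : L = L' := by
  have h12 := e12 i t
  have h23 := e23 i t
  have hM := h.1
  have ha' : ∀ j, (L j).1 = (L' j).1 := fun j => congrFun ha j
  have hc' : ∀ j, (L j).2.2 = (L' j).2.2 := fun j => congrFun hc j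
  have hs : s1 D t L = s1 D t L' := by
    have ht : t < M := by omega
    have hdj := congrFun hd ⟨t, ht⟩
    simp only [dl] at hdj
    rw [if_neg (by omega), if_neg (by omega), if_neg (by omega), if_neg (by omega),
      ha', hc'] at hdj
    have hb := par_inj_y hdj
    unfold s1
    rw [arne (L := L) (j := ⟨t, ht⟩) rfl, arne (L := L') (j := ⟨t, ht⟩) rfl, ha', hc', hb]
  have hb' : ∀ j, (L j).2.1 = (L' j).2.1 := by
    intro j
    have hdj := congrFun hd j
    simp only [dl] at hdj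
    by_cases h2 : (j : ℕ) = t + 2 ^ i
    · rw [if_pos h2, if_pos h2, ha', hc', hs] at hdj
      exact c2_inj_y hdj
    · by_cases h3 : (j : ℕ) = t + 2 ^ (i + 1)
      · rw [if_neg h2, if_neg h2, if_pos h3, if_pos h3, ha', hc', hs] at hdj
        have g1 := h.2.2
        have g2 := h'.2.2
        rw [arne h3, ha', hc', hs] at g1
        rw [arne h3] at g2
        exact c3_inj_y g1.ne_zero g2.ne_zero g1.add_ne_zero hdj
      · rw [if_neg h2, if_neg h2, if_neg h3, if_neg h3, ha', hc'] at hdj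
        exact par_inj_y hdj
  funext j
  exact Prod.ext (ha' j) (Prod.ext (hb' j) (hc' j))

lemma inj_a {i t : ℕ} {L L' : TL q M} (h : Good D i t L) (h' : Good D i t L')
    (hb : lb L = lb L') (hc : lc L = lc L')
    (hd : dl (s1 D t L) (t + 2 ^ i) (t + 2 ^ (i + 1)) L =
      dl (s1 D t L') (t + 2 ^ i) (t + 2 ^ (i + 1)) L') : L = L' := by
  have h12 := e12 i t
  have h23 := e23 i t
  have hM := h.1
  have hb' : ∀ j, (L j).2.1 = (L' j).2.1 := fun j => congrFun hb j
  have hc' : ∀ j, (L j).2.2 = (L' j).2.2 := fun j => congrFun hc j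
  have hs : s1 D t L = s1 D t L' := by
    have ht : t < M := by omega
    have hdj := congrFun hd ⟨t, ht⟩
    simp only [dl] at hdj
    rw [if_neg (by omega), if_neg (by omega), if_neg (by omega), if_neg (by omega),
      hb', hc'] at hdj
    have ha := par_inj_x hdj
    unfold s1
    rw [arne (L := L) (j := ⟨t, ht⟩) rfl, arne (L := L') (j := ⟨t, ht⟩) rfl, hb', hc', ha]
  have ha' : ∀ j, (L j).1 = (L' j).1 := by
    intro j
    have hdj := congrFun hd j
    simp only [dl] at hdj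
    by_cases h2 : (j : ℕ) = t + 2 ^ i
    · rw [if_pos h2, if_pos h2, hb', hc', hs] at hdj
      have g1 := h.2.1
      have g2 := h'.2.1
      rw [arne h2, hb', hc', hs] at g1
      rw [arne h2] at g2
      exact c2_inj_x g1.ne_zero g2.ne_zero g1.sub_ne_zero hdj
    · by_cases h3 : (j : ℕ) = t + 2 ^ (i + 1)
      · rw [if_neg h2, if_neg h2, if_pos h3, if_pos h3, hb', hc', hs] at hdj
        exact c3_inj_x hdj
      · rw [if_neg h2, if_neg h2, if_neg h3, if_neg h3, hb', hc'] at hdj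
        exact par_inj_x hdj
  funext j
  exact Prod.ext (ha' j) (Prod.ext (hb' j) (hc' j))

end

end Pool.Agent.H662R3
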