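import Pool.Agent.H662R3.Block

set_option autoImplicit false

namespace Pool.Agent.H662R3

/-- size of level `e` -/
def lev (D e : ℕ) : ℕ := D ^ (e + 1)

/-- gap read off from an area at level `e` -/
def gap (D q e : ℕ) (τ : ZMod q) : ℕ := lev D e + τ.val % lev D e

/-- good residues -/
def Gd (q m s : ℕ) (A : ZMod q) : Prop := s < A.val % m ∧ A.val % m + s < m ∧ A.val + s < q

instance (q m s : ℕ) (A : ZMod q) : Decidable (Gd q m s A) := by unfold Gd; infer_instance

section

variable {q : ℕ} [Fact q.Prime]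

lemma lev_pos {D : ℕ} (hD : 2 ≤ D) (e : ℕ) : 0 < lev D e := by
  unfold lev; positivity

omit [Fact q.Prime] in
lemma gap_ge (D e : ℕ) (τ : ZMod q) : lev D e ≤ gap D q e τ := Nat.le_add_right _ _

omit [Fact q.Prime] in
lemma gap_lt {D : ℕ} (hD : 2 ≤ D) (e : ℕ) (τ : ZMod q) : gap D q e τ < 2 * lev D e := by
  unfold gap
  have := Nat.mod_lt τ.val (lev_pos hD e)
  omega

lemma lev_mono {D : ℕ} (hD : 2 ≤ D) {e e' : ℕ} (h : e < e') : D * lev D e ≤ lev D e' := by
  unfold lev
  rw [← pow_succ']
  exact Nat.pow_le_pow_right (by omega) (by omega)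

omit [Fact q.Prime] in
lemma gap_lt_gap {D : ℕ} (hD : 2 ≤ D) {e e' : ℕ} (h : e < e') (τ τ' : ZMod q) :
    gap D q e τ < gap D q e' τ' := by
  have h1 := gap_lt hD e τ
  have h2 := gap_ge D e' τ'
  have h3 := lev_mono hD h
  have h4 : 2 * lev D e ≤ D * lev D e := Nat.mul_le_mul_right _ hD
  omega

omit [Fact q.Prime] in
lemma gap_level {D : ℕ} (hD : 2 ≤ D) {e e' : ℕ} {τ τ' : ZMod q}
    (h : gap D q e τ = gap D q e' τ') : e = e' := by
  rcases lt_trichotomy e e' with h1 | h1 | h1
  · exact absurd h (gap_lt_gap hD h1 τ τ').ne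
  · exact h1
  · exact absurd h.symm (gap_lt_gap hD h1 τ' τ).ne

lemma Gd.val_add {m s : ℕ} {A : ZMod q} (h : Gd q m s A) : (A + (s : ZMod q)).val = A.val + s := by
  have hs : s < q := by have := h.2.2; omega
  have hsv : (s : ZMod q).val = s := ZMod.val_natCast_of_lt hs
  rw [ZMod.val_add_of_lt (by rw [hsv]; exact h.2.2), hsv]

lemma Gd.val_sub {m s : ℕ} {A : ZMod q} (h : Gd q m s A) :
    (A - (s : ZMod q)).val = A.val - s ∧ s < A.val := by
  have hs : s < A.val := lt_of_lt_of_le h.1 (Nat.mod_le _ _)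
  refine ⟨?_, hs⟩
  have hs' : s < q := by have := h.2.2; omega
  have hsv : (s : ZMod q).val = s := ZMod.val_natCast_of_lt hs'
  rw [ZMod.val_sub (by rw [hsv]; exact hs.le), hsv]

lemma Gd.ne_zero {m s : ℕ} {A : ZMod q} (h : Gd q m s A) : A ≠ 0 := by
  rintro rfl
  have := h.1
  simp at this

lemma Gd.add_ne_zero {m s : ℕ} {A : ZMod q} (h : Gd q m s A) : A + (s : ZMod q) ≠ 0 := by
  intro h0
  have h1 := h.val_add
  rw [h0, ZMod.val_zero] at h1
  have := h.val_sub.2
  omega

lemma Gd.sub_ne_zero {m s : ℕ} {A : ZMod q} (h : Gd q m s A) : A - (s : ZMod q) ≠ 0 := by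
  intro h0
  have h1 := h.val_sub
  rw [h0, ZMod.val_zero] at h1
  omega

lemma Gd.gap_add {D e s : ℕ} {A : ZMod q} (h : Gd q (lev D e) s A) :
    gap D q e (A + (s : ZMod q)) = gap D q e A + s := by
  unfold gap
  rw [h.val_add]
  have h1 := h.2.1
  have : (A.val + s) % lev D e = A.val % lev D e + s := by
    rw [Nat.add_mod, Nat.mod_eq_of_lt (a := s) (by omega)]
    exact Nat.mod_eq_of_lt h1
  rw [this]
  omega

lemma Gd.gap_sub {D e s : ℕ} {A : ZMod q} (h : Gd q (lev D e) s A) :
    gap D q e (A - (s : ZMod q)) + s = gap D q e A := by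
  unfold gap
  rw [h.val_sub.1]
  have h1 := h.1
  have h2 := h.2.1
  have hm : A.val % lev D e < lev D e := by omega
  have : (A.val - s) % lev D e = A.val % lev D e - s := by
    have e1 : A.val = lev D e * (A.val / lev D e) + A.val % lev D e :=
      (Nat.div_add_mod _ _).symm
    have e2 : A.val - s = lev D e * (A.val / lev D e) + (A.val % lev D e - s) := by
      omega
    rw [e2, Nat.mul_add_mod]
    exact Nat.mod_eq_of_lt (by omega)
  rw [this]
  omega

/-- number of bad residues -/
lemma card_bad (m s : ℕ) (hm : 0 < m) :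
    (Finset.univ.filter (fun A : ZMod q => ¬ Gd q m s A)).card ≤
      (q / m + 1) * (2 * s + 1) + s := by
  classical
  have hq : 0 < q := (Fact.out : q.Prime).pos
  set R : Finset ℕ := Finset.range (s + 1) ∪ Finset.Ico (m - s) m with hR
  have hRcard : R.card ≤ 2 * s + 1 := by
    refine (Finset.card_union_le _ _).trans ?_
    rw [Finset.card_range, Nat.card_Ico]
    omega
  set P : Finset (ℕ × ℕ) := Finset.range (q / m + 1) ×ˢ R with hP
  have hsub : (Finset.univ.filter (fun A : ZMod q => ¬ Gd q m s A)).image (fun A => A.val) ⊆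
      (P.image (fun p => m * p.1 + p.2)) ∪ Finset.Ico (q - s) q := by
    intro v hv
    obtain ⟨A, hA, rfl⟩ := Finset.mem_image.1 hv
    have hA' := (Finset.mem_filter.1 hA).2
    have hAq : A.val < q := ZMod.val_lt A
    unfold Gd at hA'
    by_cases h1 : A.val + s < q
    · apply Finset.mem_union_left
      refine Finset.mem_image.2 ⟨(A.val / m, A.val % m), ?_, Nat.div_add_mod _ _⟩
      refine Finset.mem_product.2 ⟨?_, ?_⟩
      · refine Finset.mem_range.2 (Nat.lt_succ_of_le (Nat.div_le_div_right hAq.le))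
      · have hmod := Nat.mod_lt A.val hm
        simp only [hR, Finset.mem_union, Finset.mem_range, Finset.mem_Ico]
        by_contra hcon
        apply hA'
        refine ⟨?_, ?_, h1⟩ <;> omega
    · apply Finset.mem_union_right
      rw [Finset.mem_Ico]
      omega
  have hinj : Function.Injective (fun A : ZMod q => A.val) := ZMod.val_injective q
  rw [← Finset.card_image_of_injective _ hinj]
  refine (Finset.card_le_card hsub).trans ((Finset.card_union_le _ _).trans ?_)
  refine Nat.add_le_add ?_ ?_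
  · refine Finset.card_image_le.trans ?_
    rw [hP, Finset.card_product, Finset.card_range]
    exact Nat.mul_le_mul_left _ hRcard
  · rw [Nat.card_Ico]
    omega

end

end Pool.Agent.H662R3
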