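import Mathlib

set_option autoImplicit false

/-!
Path lemma: a finite set `V` of increasing 4-tuples of naturals on which `(p1,p2,p3)` and
`(p2,p3,p4)` are injective gives a list of positive integers, of length
`|V| + 2 |{starts}|`, containing the gap triple of every element of `V` as consecutive terms.
-/

namespace Pool.Agent.H662R3

open Finset

/-- gap of two points, after embedding points by powers of two -/
def g (p p' : ℕ) : ℕ := 2 ^ p' - 2 ^ p

lemma g_pos {p p' : ℕ} (h : p < p') : 0 < g p p' := by
  unfold g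
  have := Nat.pow_lt_pow_right (a := 2) (by norm_num) h
  omega

lemma g_add {p p' p'' : ℕ} (h : p < p') (h' : p' < p'') : g p p' + g p' p'' = g p p'' := by
  unfold g
  have h1 := Nat.pow_lt_pow_right (a := 2) (by norm_num) h
  have h2 := Nat.pow_lt_pow_right (a := 2) (by norm_num) h'
  omega

lemma g_le_aux {a b a' b' : ℕ} (hab' : a' < b') (h : g a b = g a' b') : b' ≤ b := by
  by_contra hlt
  push Not at hlt
  unfold g at h
  have h1 : 2 ^ a' ≤ 2 ^ (b' - 1) := Nat.pow_le_pow_right (by norm_num) (by omega)
  have h2 : 2 ^ b ≤ 2 ^ (b' - 1) := Nat.pow_le_pow_right (by norm_num) (by omega)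
  have h3 : 2 ^ b' = 2 * 2 ^ (b' - 1) := by
    rw [← pow_succ']
    congr 1
    omega
  have h4 : 0 < 2 ^ a := by positivity
  have h5 : 0 < 2 ^ (b' - 1) := by positivity
  rcases Nat.lt_or_ge (2 ^ b) (2 ^ a) with h6 | h6
  · omega
  · omega

lemma g_inj {a b a' b' : ℕ} (hab : a < b) (hab' : a' < b') (h : g a b = g a' b') :
    a = a' ∧ b = b' := by
  have hb : b = b' := le_antisymm (g_le_aux hab h.symm) (g_le_aux hab' h)
  subst hb
  refine ⟨?_, rfl⟩
  unfold g at h
  have h1 := Nat.pow_lt_pow_right (a := 2) (by norm_num) hab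
  have h2 := Nat.pow_lt_pow_right (a := 2) (by norm_num) hab'
  have h3 : 2 ^ a = 2 ^ a' := by omega
  exact Nat.pow_right_injective (le_refl 2) h3

/-- 4-tuples of naturals -/
abbrev Q4 := ℕ × ℕ × ℕ × ℕ

/-- first face -/
def st (v : Q4) : ℕ × ℕ × ℕ := (v.1, v.2.1, v.2.2.1)

/-- last face -/
def en (v : Q4) : ℕ × ℕ × ℕ := (v.2.1, v.2.2.1, v.2.2.2)

/-- increasing 4-tuple -/
def Inc (v : Q4) : Prop := v.1 < v.2.1 ∧ v.2.1 < v.2.2.1 ∧ v.2.2.1 < v.2.2.2

/-- first gap -/
def x1 (v : Q4) : ℕ := g v.1 v.2.1
/-- second gap -/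
def x2 (v : Q4) : ℕ := g v.2.1 v.2.2.1
/-- third gap -/
def x3 (v : Q4) : ℕ := g v.2.2.1 v.2.2.2

theorem path (V : Finset Q4) : (∀ v ∈ V, Inc v) → Set.InjOn st (V : Set Q4) →
    Set.InjOn en (V : Set Q4) →
    ∃ Ls : Multiset (List ℕ),
      (∀ l ∈ Ls, ∀ x ∈ l, 0 < x) ∧
      (∀ v ∈ V, ∃ l ∈ Ls, [x1 v, x2 v, x3 v] <:+: l) ∧
      ((Ls.map List.length).sum = V.card + 2 * Multiset.card Ls) ∧
      Multiset.card Ls = (V.filter (fun v => st v ∉ V.image en)).card ∧
      (∀ v ∈ V, st v ∉ V.image en → ∃ l ∈ Ls, [x1 v, x2 v] <+: l) := by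
  classical
  refine Finset.induction_on_min_value (fun v : Q4 => v.1) V ?_ ?_
  · intro _ _ _
    exact ⟨0, by simp, by simp, by simp, by simp, by simp⟩
  · intro v0 V' hv0 hmin ih hinc hst hen
    have hincV' : ∀ v ∈ V', Inc v := fun v hv => hinc v (mem_insert_of_mem hv)
    have hsub : (V' : Set Q4) ⊆ ((insert v0 V' : Finset Q4) : Set Q4) := by
      intro v hv
      exact mem_coe.2 (mem_insert_of_mem (mem_coe.1 hv))
    obtain ⟨Ls', hpos, hinf, hsum, hcard, hpre⟩ := ih hincV' (hst.mono hsub) (hen.mono hsub)
    have hi0 : Inc v0 := hinc v0 (mem_insert_self _ _)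
    have hv0start : st v0 ∉ (insert v0 V').image en := by
      intro h
      obtain ⟨v, hv, hve⟩ := mem_image.1 h
      have h1 : v.2.1 = v0.1 := congrArg (fun z => z.1) hve
      have h2 := (hinc v hv).1
      rcases mem_insert.1 hv with rfl | hv
      · omega
      · have := hmin v hv
        omega
    have hst_inj : ∀ v ∈ V', ∀ w ∈ V', st v = st w → v = w := fun v hv w hw h =>
      hst (hsub (mem_coe.2 hv)) (hsub (mem_coe.2 hw)) h
    have himg : ∀ z, z ∉ (insert v0 V').image en ↔ z ∉ V'.image en ∧ z ≠ en v0 := by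
      intro z
      rw [image_insert, mem_insert, not_or]
      exact and_comm
    by_cases hex : ∃ v1 ∈ V', st v1 = en v0
    · obtain ⟨v1, hv1, hv1e⟩ := hex
      have hv1start : st v1 ∉ V'.image en := by
        intro h
        obtain ⟨v2, hv2, hv2e⟩ := mem_image.1 h
        have : v2 = v0 := hen (hsub (mem_coe.2 hv2)) (mem_coe.2 (mem_insert_self _ _))
          (hv2e.trans hv1e)
        exact hv0 (this ▸ hv2)
      obtain ⟨l1, hl1, hp1⟩ := hpre v1 hv1 hv1start
      obtain ⟨rest, hrest⟩ := Multiset.exists_cons_of_mem hl1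
      have e12 : x1 v1 = x2 v0 := by
        unfold x1 x2
        have h1 : v1.1 = v0.2.1 := congrArg (fun z => z.1) hv1e
        have h2 : v1.2.1 = v0.2.2.1 := congrArg (fun z => z.2.1) hv1e
        rw [h1, h2]
      have e23 : x2 v1 = x3 v0 := by
        unfold x2 x3
        have h1 : v1.2.1 = v0.2.2.1 := congrArg (fun z => z.2.1) hv1e
        have h2 : v1.2.2.1 = v0.2.2.2 := congrArg (fun z => z.2.2) hv1e
        rw [h1, h2]
      rw [e12, e23] at hp1
      have hstarts : (insert v0 V').filter (fun v => st v ∉ (insert v0 V').image en) =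
          insert v0 ((V'.filter (fun v => st v ∉ V'.image en)).erase v1) := by
        ext v
        rw [mem_filter, mem_insert, mem_insert, mem_erase, mem_filter, himg]
        constructor
        · rintro ⟨rfl | hv, h1, h2⟩
          · exact Or.inl rfl
          · refine Or.inr ⟨?_, hv, h1⟩
            rintro rfl
            exact h2 hv1e
        · rintro (rfl | ⟨h1, hv, h2⟩)
          · exact ⟨Or.inl rfl, (himg _).1 hv0start⟩
          · refine ⟨Or.inr hv, h2, ?_⟩
            intro h3
            exact h1 (hst_inj v hv v1 hv1 (h3.trans hv1e.symm))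
      refine ⟨(x1 v0 :: l1) ::ₘ rest, ?_, ?_, ?_, ?_, ?_⟩
      · intro l hl x hx
        rcases Multiset.mem_cons.1 hl with rfl | hl
        · rcases List.mem_cons.1 hx with rfl | hx
          · exact g_pos hi0.1
          · exact hpos l1 hl1 x hx
        · exact hpos l (by rw [hrest]; exact Multiset.mem_cons_of_mem hl) x hx
      · intro v hv
        rcases mem_insert.1 hv with rfl | hv
        · refine ⟨_, Multiset.mem_cons_self _ _, ?_⟩
          apply List.IsPrefix.isInfix
          obtain ⟨t, ht⟩ := hp1
          exact ⟨t, by rw [← ht]; rfl⟩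
        · obtain ⟨l, hl, hli⟩ := hinf v hv
          rw [hrest] at hl
          rcases Multiset.mem_cons.1 hl with rfl | hl
          · exact ⟨_, Multiset.mem_cons_self _ _, hli.trans (List.suffix_cons _ _).isInfix⟩
          · exact ⟨l, Multiset.mem_cons_of_mem hl, hli⟩
      · have h1 := hsum
        rw [hrest] at h1
        simp only [Multiset.map_cons, Multiset.sum_cons, Multiset.card_cons,
          List.length_cons] at h1 ⊢
        rw [card_insert_of_notMem hv0]
        omega
      · rw [hstarts]
        have hmem : v1 ∈ V'.filter (fun v => st v ∉ V'.image en) :=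
          mem_filter.2 ⟨hv1, hv1start⟩
        have hnot : v0 ∉ (V'.filter (fun v => st v ∉ V'.image en)).erase v1 := by
          intro h
          exact hv0 (mem_filter.1 (mem_of_mem_erase h)).1
        rw [card_insert_of_notMem hnot, card_erase_of_mem hmem]
        have h1 := hcard
        rw [hrest] at h1
        simp only [Multiset.card_cons] at h1 ⊢
        have : 0 < (V'.filter (fun v => st v ∉ V'.image en)).card := card_pos.2 ⟨v1, hmem⟩
        omega
      · intro v hv hvs
        rcases mem_insert.1 hv with rfl | hv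
        · refine ⟨_, Multiset.mem_cons_self _ _, ?_⟩
          obtain ⟨t, ht⟩ := hp1
          exact ⟨x3 v :: t, by rw [← ht]; rfl⟩
        · have h1 := (himg _).1 hvs
          obtain ⟨l, hl, hlp⟩ := hpre v hv h1.1
          rw [hrest] at hl
          rcases Multiset.mem_cons.1 hl with rfl | hl
          · exfalso
            obtain ⟨t, ht⟩ := hp1
            obtain ⟨t', ht'⟩ := hlp
            have h2 := ht.trans ht'.symm
            simp only [List.cons_append, List.nil_append, List.cons.injEq] at h2
            have hiv := hincV' v hv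
            have k1 := g_inj hi0.2.1 hiv.1 h2.1
            have k2 := g_inj hi0.2.2 hiv.2.1 h2.2.1
            apply h1.2
            unfold st en
            rw [k1.1, k1.2, k2.2]
          · exact ⟨l, Multiset.mem_cons_of_mem hl, hlp⟩
    · push Not at hex
      have hstarts : (insert v0 V').filter (fun v => st v ∉ (insert v0 V').image en) =
          insert v0 (V'.filter (fun v => st v ∉ V'.image en)) := by
        ext v
        rw [mem_filter, mem_insert, mem_insert, mem_filter, himg]
        constructor
        · rintro ⟨rfl | hv, h1, h2⟩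
          · exact Or.inl rfl
          · exact Or.inr ⟨hv, h1⟩
        · rintro (rfl | ⟨hv, h2⟩)
          · exact ⟨Or.inl rfl, (himg _).1 hv0start⟩
          · exact ⟨Or.inr hv, h2, hex v hv⟩
      refine ⟨[x1 v0, x2 v0, x3 v0] ::ₘ Ls', ?_, ?_, ?_, ?_, ?_⟩
      · intro l hl x hx
        rcases Multiset.mem_cons.1 hl with rfl | hl
        · simp only [List.mem_cons, List.not_mem_nil, or_false] at hx
          rcases hx with rfl | rfl | rfl
          · exact g_pos hi0.1
          · exact g_pos hi0.2.1
          · exact g_pos hi0.2.2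
        · exact hpos l hl x hx
      · intro v hv
        rcases mem_insert.1 hv with rfl | hv
        · exact ⟨_, Multiset.mem_cons_self _ _, List.infix_rfl⟩
        · obtain ⟨l, hl, hli⟩ := hinf v hv
          exact ⟨l, Multiset.mem_cons_of_mem hl, hli⟩
      · simp only [Multiset.map_cons, Multiset.sum_cons, Multiset.card_cons,
          List.length_cons, List.length_nil]
        rw [card_insert_of_notMem hv0]
        omega
      · rw [hstarts]
        have hnot : v0 ∉ V'.filter (fun v => st v ∉ V'.image en) := by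
          intro h
          exact hv0 (mem_filter.1 h).1
        rw [card_insert_of_notMem hnot, Multiset.card_cons, hcard]
      · intro v hv hvs
        rcases mem_insert.1 hv with rfl | hv
        · exact ⟨_, Multiset.mem_cons_self _ _, ⟨[x3 v], rfl⟩⟩
        · have h1 := (himg _).1 hvs
          obtain ⟨l, hl, hlp⟩ := hpre v hv h1.1
          exact ⟨l, Multiset.mem_cons_of_mem hl, hlp⟩

end Pool.Agent.H662R3
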